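import Mathlib

/-!
# Comparing the correlations of the Liouville function of all orders near their extreme value

For a finite set `A` of shifts let `F A n = ∏ a ∈ A, λ (n + a)`. The values `F A n` are read
additively: `om n = Ω n mod 2`, and polynomials over `ZMod 2` act on functions `ℕ → ZMod 2` by
the shift.
-/

namespace Pool.Agent.Results.MP_e6fa8b_nt.SignTransfer

open Finset Polynomial

/-- `F A n = ∏_{a ∈ A} λ(n + a)`, with `λ(n) = (-1) ^ Ω(n)` the Liouville function. -/
def F (A : Finset ℕ) (n : ℕ) : ℤ :=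
  ∏ a ∈ A, (-1 : ℤ) ^ (ArithmeticFunction.cardFactors (n + a))

/-- The parity of `Ω`. -/
def om (n : ℕ) : ZMod 2 := (ArithmeticFunction.cardFactors n : ZMod 2)

lemma om_mul {m n : ℕ} (hm : m ≠ 0) (hn : n ≠ 0) : om (m * n) = om m + om n := by
  unfold om
  rw [ArithmeticFunction.cardFactors_mul hm hn]; push_cast; rfl

/-- The shift on functions `ℕ → ZMod 2`. -/
def sh : Module.End (ZMod 2) (ℕ → ZMod 2) where
  toFun f := fun n => f (n + 1)
  map_add' _ _ := rfl
  map_smul' _ _ := rfl

lemma sh_pow (i : ℕ) (f : ℕ → ZMod 2) (n : ℕ) : (sh ^ i) f n = f (n + i) := by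
  induction i generalizing n with
  | zero => simp
  | succ i ih =>
    rw [pow_succ', Module.End.mul_apply]
    change (sh ^ i) f (n + 1) = _
    rw [ih]; congr 1; ring

lemma aeval_apply (R : (ZMod 2)[X]) (f : ℕ → ZMod 2) (n : ℕ) :
    (aeval sh R) f n = ∑ i ∈ R.support, R.coeff i * f (n + i) := by
  rw [aeval_eq_sum_range' (Nat.lt_succ_self _), LinearMap.sum_apply, Finset.sum_apply]
  rw [← Finset.sum_subset (s₁ := R.support) (s₂ := Finset.range R.natDegree.succ)]
  · refine Finset.sum_congr rfl fun i _ => ?_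
    rw [LinearMap.smul_apply, Pi.smul_apply, sh_pow, smul_eq_mul]
  · exact supp_subset_range_natDegree_succ
  · intro i _ hi
    rw [notMem_support_iff.mp hi, zero_smul]; rfl

/-- The polynomial of a set of shifts. -/
noncomputable def pol (A : Finset ℕ) : (ZMod 2)[X] := ∑ a ∈ A, X ^ a

lemma pol_coeff (A : Finset ℕ) (i : ℕ) : (pol A).coeff i = if i ∈ A then 1 else 0 := by
  unfold pol
  rw [finsetSum_coeff]
  simp [coeff_X_pow]

lemma pol_ne_zero {A : Finset ℕ} (hA : A.Nonempty) : pol A ≠ 0 := by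
  obtain ⟨a, ha⟩ := hA
  intro h
  have := pol_coeff A a
  rw [h, if_pos ha] at this
  simp at this

/-- Additive form of `F`. -/
noncomputable def G (A : Finset ℕ) : ℕ → ZMod 2 := (aeval sh (pol A)) om

lemma G_apply (A : Finset ℕ) (n : ℕ) : G A n = ∑ a ∈ A, om (n + a) := by
  unfold G pol
  rw [map_sum, LinearMap.sum_apply, Finset.sum_apply]
  refine Finset.sum_congr rfl fun a _ => ?_
  rw [map_pow, aeval_X, sh_pow]

lemma zmod2 : ∀ z : ZMod 2, z = 0 ∨ z = 1 := by decide

lemma F_eq (A : Finset ℕ) (n : ℕ) :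
    F A n = (-1 : ℤ) ^ (∑ a ∈ A, ArithmeticFunction.cardFactors (n + a)) := by
  unfold F
  rw [prod_pow_eq_pow_sum]

lemma G_eq_cast (A : Finset ℕ) (n : ℕ) :
    G A n = ((∑ a ∈ A, ArithmeticFunction.cardFactors (n + a) : ℕ) : ZMod 2) := by
  rw [G_apply]; unfold om; push_cast; rfl

lemma F_eq_one_iff (A : Finset ℕ) (n : ℕ) : F A n = 1 ↔ G A n = 0 := by
  rw [F_eq, G_eq_cast, ZMod.natCast_eq_zero_iff_even]
  constructor
  · intro h
    by_contra hne
    rw [Nat.not_even_iff_odd] at hne
    rw [hne.neg_one_pow] at h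
    norm_num at h
  · intro h; exact h.neg_one_pow

lemma F_eq_neg_one_iff (A : Finset ℕ) (n : ℕ) : F A n = -1 ↔ G A n = 1 := by
  have h1 := F_eq_one_iff A n
  have h2 : F A n = 1 ∨ F A n = -1 := by
    rw [F_eq]; exact neg_one_pow_eq_or ℤ _
  have h3 := zmod2 (G A n)
  constructor
  · intro h
    rcases h3 with h3 | h3
    · rw [h1.mpr h3] at h; norm_num at h
    · exact h3
  · intro h
    rcases h2 with h2 | h2
    · rw [h1.mp h2] at h; exact absurd h (by decide)
    · exact h2

lemma two_ne : ∀ v a b : ZMod 2, a ≠ v → b ≠ v → a = b := by decide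

/-- A nonzero polynomial over `ZMod 2` divides `X ^ (2e) - X ^ e` for some `e ≥ 1`. -/
lemma exists_dvd {S : (ZMod 2)[X]} (hS : S ≠ 0) :
    ∃ e : ℕ, 1 ≤ e ∧ S ∣ X ^ (2 * e) - X ^ e := by
  have : Module.Finite (ZMod 2) (AdjoinRoot S) := (AdjoinRoot.powerBasis hS).finite
  have : Finite (AdjoinRoot S) := Module.finite_of_finite (ZMod 2)
  obtain ⟨i, j, hij, h⟩ := Finite.exists_ne_map_eq_of_infinite
    (fun i : ℕ => (AdjoinRoot.root S) ^ i)
  wlog hlt : i < j generalizing i j
  · exact this j i hij.symm h.symm (by omega)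
  replace h : (AdjoinRoot.root S) ^ i = (AdjoinRoot.root S) ^ j := h
  obtain ⟨T, rfl⟩ : ∃ T, j = i + T := ⟨j - i, by omega⟩
  have hT : 1 ≤ T := by omega
  have step : ∀ c k : ℕ, i ≤ k →
      (AdjoinRoot.root S) ^ (k + c * T) = (AdjoinRoot.root S) ^ k := by
    intro c
    induction c with
    | zero => intro k _; simp
    | succ c ih =>
      intro k hk
      obtain ⟨l, rfl⟩ : ∃ l, k = i + l := ⟨k - i, by omega⟩
      have : i + l + (c + 1) * T = (i + T) + l + c * T := by ring
      rw [this, ih _ (by omega), pow_add _ (i + T) l, ← h, ← pow_add]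
  refine ⟨(i + 1) * T, Nat.mul_pos (by omega) hT, ?_⟩
  have hi : i ≤ (i + 1) * T := by nlinarith
  have h2 := step (i + 1) ((i + 1) * T) hi
  rw [← AdjoinRoot.mk_eq_zero, map_sub, map_pow, map_pow, AdjoinRoot.mk_X, sub_eq_zero]
  rw [← h2]; congr 1; ring

/-- Windows: where `om` differs at `n + e` and `n + 2 e`, `G B` takes both values close to `n`. -/
lemma window {B : Finset ℕ} (hB : B.Nonempty) :
    ∃ e K : ℕ, 1 ≤ e ∧ ∀ n : ℕ, om (n + e) ≠ om (n + 2 * e) → ∀ v : ZMod 2,
      ∃ q, 1 ≤ q ∧ q ≤ K ∧ G B (n + q) = v := by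
  have hS : (X : (ZMod 2)[X]) * (X - 1) * pol B ≠ 0 := by
    refine mul_ne_zero (mul_ne_zero X_ne_zero ?_) (pol_ne_zero hB)
    have := X_sub_C_ne_zero (1 : ZMod 2)
    rwa [C_1] at this
  obtain ⟨e, he, Q, hQ⟩ := exists_dvd hS
  refine ⟨e, Q.natDegree + 2, he, ?_⟩
  intro n hn v
  have key : (aeval sh (X ^ (2 * e) - X ^ e : (ZMod 2)[X])) om n = om (n + 2 * e) - om (n + e) := by
    rw [map_sub, map_pow, map_pow, aeval_X, LinearMap.sub_apply, Pi.sub_apply, sh_pow, sh_pow]
  have key2 : (aeval sh (X ^ (2 * e) - X ^ e : (ZMod 2)[X])) om n =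
      ∑ i ∈ Q.support, Q.coeff i * (G B (n + i + 2) - G B (n + i + 1)) := by
    have : (X ^ (2 * e) - X ^ e : (ZMod 2)[X]) = Q * ((X * (X - 1)) * pol B) := by
      rw [hQ]; ring
    rw [this, map_mul, Module.End.mul_apply, aeval_apply]
    refine Finset.sum_congr rfl fun i _ => ?_
    congr 1
    rw [map_mul, Module.End.mul_apply]
    change (aeval sh (X * (X - 1) : (ZMod 2)[X])) (G B) (n + i) = _
    have hx : (X * (X - 1) : (ZMod 2)[X]) = X ^ 2 - X ^ 1 := by ring
    rw [hx, map_sub, map_pow, map_pow, aeval_X, LinearMap.sub_apply, Pi.sub_apply, sh_pow, sh_pow]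
  by_contra hcon
  push Not at hcon
  apply hn
  have hz : ∀ i ∈ Q.support, Q.coeff i * (G B (n + i + 2) - G B (n + i + 1)) = 0 := by
    intro i hi
    have hi' : i ≤ Q.natDegree := le_natDegree_of_mem_supp i hi
    have h1 := hcon (i + 2) (by omega) (by omega)
    have h2 := hcon (i + 1) (by omega) (by omega)
    have h1' : G B (n + i + 2) ≠ v := by rw [add_assoc]; exact h1
    have h2' : G B (n + i + 1) ≠ v := by rw [add_assoc]; exact h2
    have : G B (n + i + 2) = G B (n + i + 1) := two_ne _ _ _ h1' h2'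
    rw [this, sub_self, mul_zero]
  rw [key, Finset.sum_eq_zero hz] at key2
  exact (sub_eq_zero.mp key2).symm

/-- Sign changes of `λ` at consecutive integers, additively. -/
def D (N : ℕ) : Finset ℕ := (Icc 1 N).filter fun m => om m ≠ om (m + 1)

/-- Counting with bounded multiplicity. -/
lemma card_le_of_near {s t : Finset ℕ} {M : ℕ} (f : ℕ → ℕ)
    (hf : ∀ a ∈ s, f a ∈ t) (hnear : ∀ a ∈ s, ∀ b ∈ s, f a = f b → b ≤ a + M) :
    s.card ≤ (M + 1) * t.card := by
  classical
  have h1 := Finset.card_le_mul_card_image (s := s) (f := f) (M + 1) ?_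
  · refine h1.trans (Nat.mul_le_mul_left _ (Finset.card_le_card ?_))
    intro y hy
    obtain ⟨a, ha, rfl⟩ := Finset.mem_image.mp hy
    exact hf a ha
  · intro y hy
    have hne : (s.filter fun a => f a = y).Nonempty := by
      obtain ⟨a, ha, hay⟩ := Finset.mem_image.mp hy
      exact ⟨a, Finset.mem_filter.mpr ⟨ha, hay⟩⟩
    set u := s.filter fun a => f a = y with hu
    have hmin := Finset.min'_mem u hne
    have hsub : u ⊆ Icc (u.min' hne) (u.min' hne + M) := by
      intro b hb
      rw [Finset.mem_Icc]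
      refine ⟨Finset.min'_le _ _ hb, ?_⟩
      have ha := Finset.mem_filter.mp hmin
      have hb' := Finset.mem_filter.mp hb
      exact hnear _ ha.1 _ hb'.1 (ha.2.trans hb'.2.symm)
    refine (Finset.card_le_card hsub).trans ?_
    rw [Nat.card_Icc]; omega

/-- Even sets of shifts: `G A n ≠ 0` forces a sign change of `λ` close to `n`. -/
lemma even_window {A : Finset ℕ} (hA : Even A.card) {M : ℕ} (hM : ∀ a ∈ A, a ≤ M) {n : ℕ}
    (hn : G A n = 1) : ∃ t, t < M ∧ om (n + t) ≠ om (n + t + 1) := by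
  by_contra hcon
  push Not at hcon
  have hconst : ∀ t, t ≤ M → om (n + t) = om n := by
    intro t
    induction t with
    | zero => intro _; rfl
    | succ t ih =>
      intro ht
      rw [← add_assoc, ← hcon t (by omega)]
      exact ih (by omega)
  rw [G_apply, Finset.sum_congr rfl fun a ha => hconst a (hM a ha), Finset.sum_const,
    nsmul_eq_mul] at hn
  obtain ⟨k, hk⟩ := hA
  rw [hk] at hn
  push_cast at hn
  have h2 : ((k : ZMod 2) + k) = 0 := CharTwo.add_self_eq_zero _
  rw [h2, zero_mul] at hn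
  exact absurd hn (by decide)

/-- Upper bound of `G A = 1` by sign changes of `λ`. -/
lemma upper (A : Finset ℕ) (hA : Even A.card) : ∃ M : ℕ, ∀ N : ℕ, 1 ≤ N →
    ((Icc 1 N).filter fun n => G A n = 1).card ≤ (M + 1) * (D ((M + 1) * N)).card := by
  classical
  obtain ⟨M, hM⟩ : ∃ M, ∀ a ∈ A, a ≤ M := ⟨A.sup id, fun a ha => Finset.le_sup (f := id) ha⟩
  refine ⟨M, fun N hN => ?_⟩
  choose! f hf using fun n (hn : G A n = 1) => even_window hA hM hn
  refine card_le_of_near (fun n => n + f n) ?_ ?_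
  · intro n hn
    rw [Finset.mem_filter, Finset.mem_Icc] at hn
    have h := hf n hn.2
    rw [D, Finset.mem_filter, Finset.mem_Icc]
    refine ⟨⟨by omega, ?_⟩, h.2⟩
    nlinarith [hn.1.2, h.1, Nat.mul_le_mul_left M hN]
  · intro a ha b hb hab
    rw [Finset.mem_filter] at ha hb
    have h1 := (hf a ha.2).1
    have h2 := (hf b hb.2).1
    have hab' : a + f a = b + f b := hab
    omega

/-- Lower bound of the number of `G B = v` by sign changes of `λ`. -/
lemma lower (B : Finset ℕ) (hB : B.Nonempty) : ∃ C : ℕ, ∀ v : ZMod 2, ∀ N : ℕ, 1 ≤ N →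
    (D N).card ≤ C * ((Icc 1 (C * N)).filter fun n => G B n = v).card := by
  classical
  obtain ⟨e, K, he, hw⟩ := window hB
  refine ⟨e + K + 1, fun v N hN => ?_⟩
  have hex : ∀ m ∈ D N, ∃ q, 1 ≤ q ∧ q ≤ K ∧ G B (e * (m - 1) + q) = v := by
    intro m hm
    rw [D, Finset.mem_filter, Finset.mem_Icc] at hm
    refine hw _ ?_ v
    obtain ⟨k, rfl⟩ : ∃ k, m = k + 1 := ⟨m - 1, by omega⟩
    have h1 : e * (k + 1 - 1) + e = e * (k + 1) := by rw [Nat.add_sub_cancel]; ring
    have h2 : e * (k + 1 - 1) + 2 * e = e * (k + 1 + 1) := by rw [Nat.add_sub_cancel]; ring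
    rw [h1, h2, om_mul (by omega) (by omega), om_mul (by omega) (by omega)]
    intro h
    exact hm.2 (add_left_cancel h)
  choose! q hq using hex
  have hmain : (D N).card ≤
      (K + 1) * ((Icc 1 ((e + K + 1) * N)).filter fun n => G B n = v).card := by
    refine card_le_of_near (fun m => e * (m - 1) + q m) ?_ ?_
    · intro m hm
      have h := hq m hm
      rw [D, Finset.mem_filter, Finset.mem_Icc] at hm
      rw [Finset.mem_filter, Finset.mem_Icc]
      refine ⟨⟨by omega, ?_⟩, h.2.2⟩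
      have h1 : e * (m - 1) ≤ e * N := Nat.mul_le_mul_left _ (by omega)
      have h2 : K ≤ K * N := Nat.le_mul_of_pos_right _ hN
      have h3 : (e + K + 1) * N = e * N + K * N + N := by ring
      omega
    · intro a ha b hb hab
      have h1 := hq a ha
      have h2 := hq b hb
      rw [D, Finset.mem_filter, Finset.mem_Icc] at ha hb
      have hab' : e * (a - 1) + q a = e * (b - 1) + q b := hab
      by_contra hcon
      push Not at hcon
      have h3 : e * (a - 1) + e * (K + 1) ≤ e * (b - 1) := by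
        rw [← Nat.mul_add]; exact Nat.mul_le_mul_left _ (by omega)
      have h4 : K + 1 ≤ e * (K + 1) := Nat.le_mul_of_pos_left _ he
      omega
  exact hmain.trans (Nat.mul_le_mul_right _ (by omega))

/-- **Transfer between correlations.** Let `A` be a finite set of shifts with an even number of
elements, `B` any nonempty finite set of shifts, and `ε = ±1`. Then, up to a constant factor in
the count and in the range, `F A` is at most as often equal to `-1` as `F B` is equal to `ε`. -/
theorem result (A B : Finset ℕ) (hA : Even A.card) (hB : B.Nonempty) (ε : ℤ)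
    (hε : ε = 1 ∨ ε = -1) :
    ∃ C : ℕ, ∀ N : ℕ, 1 ≤ N →
      ((Icc 1 N).filter fun n => F A n = -1).card
        ≤ C * ((Icc 1 (C * N)).filter fun n => F B n = ε).card := by
  classical
  obtain ⟨M, hM⟩ := upper A hA
  obtain ⟨C, hC⟩ := lower B hB
  obtain ⟨v, hv⟩ : ∃ v : ZMod 2, ∀ n, G B n = v ↔ F B n = ε := by
    rcases hε with rfl | rfl
    · exact ⟨0, fun n => (F_eq_one_iff B n).symm⟩
    · exact ⟨1, fun n => (F_eq_neg_one_iff B n).symm⟩
  refine ⟨(M + 1) * C, fun N hN => ?_⟩
  have h1 := hM N hN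
  have h2 := hC v ((M + 1) * N) (Nat.mul_pos (by omega) hN)
  have e1 : ((Icc 1 N).filter fun n => F A n = -1) = (Icc 1 N).filter fun n => G A n = 1 :=
    Finset.filter_congr fun n _ => F_eq_neg_one_iff A n
  have e2 : ((Icc 1 ((M + 1) * C * N)).filter fun n => F B n = ε)
      = (Icc 1 ((M + 1) * C * N)).filter fun n => G B n = v :=
    Finset.filter_congr fun n _ => (hv n).symm
  rw [e1, e2]
  have e3 : (M + 1) * C * N = C * ((M + 1) * N) := by ring
  rw [e3]
  calc _ ≤ (M + 1) * (D ((M + 1) * N)).card := h1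
    _ ≤ (M + 1) * (C * _) := Nat.mul_le_mul_left _ h2
    _ = _ := by ring

end Pool.Agent.Results.MP_e6fa8b_nt.SignTransfer
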