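import Mathlib

/-!
# Explicit, shift-uniform bounds for Chowla averages of every order at every scale

For shifts `h 0, …, h (ℓ-1)` put `F n = ∏ j, λ (n + h j)`, where `λ n = (-1) ^ Ω n`.
Let `a` be the larger of the number of even shifts and the number of odd shifts.
We prove that the average of `F` over `1 ≤ n ≤ N` is at least
`-(2a-1)/(2a+1) - (4H+7)(log₂ N + 1)/N`, for every `N ≥ 1`, where `H` bounds the shifts,
and, when `ℓ` is odd, the matching upper bound.
-/

namespace Pool.Agent.Results.MP_e6fa8b_nt.AllOrdersAllScales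

open Finset

/-- Off-diagonal terms of a symmetric array of signs cancel. -/
lemma prod_prod_symm {ι : Type*} [DecidableEq ι] (s : Finset ι) (g : ι → ι → ℝ)
    (hs : ∀ i j, g i j = g j i) (h1 : ∀ i j, g i j * g i j = 1) :
    ∏ i ∈ s, ∏ j ∈ s, g i j = ∏ i ∈ s, g i i := by
  induction s using Finset.induction_on with
  | empty => simp
  | insert a s ha ih =>
    rw [prod_insert ha, prod_insert ha, prod_insert ha]
    have h2 : ∏ i ∈ s, ∏ j ∈ insert a s, g i j
        = (∏ i ∈ s, g a i) * ∏ i ∈ s, ∏ j ∈ s, g i j := by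
      rw [← prod_mul_distrib]
      refine prod_congr rfl fun i _ => ?_
      rw [prod_insert ha, hs i a]
    rw [h2, ih]
    have h3 : (∏ i ∈ s, g a i) * (∏ i ∈ s, g a i) = 1 := by
      rw [← prod_mul_distrib]
      exact prod_eq_one fun i _ => h1 a i
    calc g a a * (∏ j ∈ s, g a j) * ((∏ i ∈ s, g a i) * ∏ i ∈ s, g i i)
        = g a a * ((∏ j ∈ s, g a j) * (∏ i ∈ s, g a i)) * ∏ i ∈ s, g i i := by ring
      _ = _ := by rw [h3, mul_one]

/-- The Liouville function as a real number. -/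
noncomputable def lam (n : ℕ) : ℝ := (-1 : ℝ) ^ (ArithmeticFunction.cardFactors n)

lemma lam_sq (n : ℕ) : lam n * lam n = 1 := by
  unfold lam
  rw [← mul_pow]; norm_num

lemma lam_two_mul {n : ℕ} (hn : n ≠ 0) : lam (2 * n) = - lam n := by
  unfold lam
  rw [ArithmeticFunction.cardFactors_mul (by norm_num) hn,
    ArithmeticFunction.cardFactors_apply_prime Nat.prime_two, pow_add]
  ring

/-- The product `F n = ∏ j, λ (n + h j)`. -/
noncomputable def F {ℓ : ℕ} (h : Fin ℓ → ℕ) (n : ℕ) : ℝ := ∏ j : Fin ℓ, lam (n + h j)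

lemma F_sq {ℓ : ℕ} (h : Fin ℓ → ℕ) (n : ℕ) : F h n * F h n = 1 := by
  unfold F
  rw [← prod_mul_distrib]
  exact prod_eq_one fun i _ => lam_sq _

/-- The multiplicative identity behind everything. -/
lemma F_identity {ℓ : ℕ} (h : Fin ℓ → ℕ) {m : ℕ} (hm : m ≠ 0) :
    ∏ j : Fin ℓ, F h (2 * m + h j) = (-1) ^ ℓ * F h m := by
  unfold F
  rw [prod_prod_symm univ (fun i j => lam (2 * m + h i + h j))
    (fun i j => by rw [add_right_comm]) (fun i j => lam_sq _)]
  have : ∀ i : Fin ℓ, lam (2 * m + h i + h i) = (-1) * lam (m + h i) := by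
    intro i
    have : 2 * m + h i + h i = 2 * (m + h i) := by ring
    rw [this, lam_two_mul (by omega)]; ring
  simp_rw [this]
  rw [prod_mul_distrib]
  simp

/-- If `ℓ + 1` signs are not all `-1`, their sum is at least `-(ℓ - 1)`. -/
lemma sum_signs {ℓ : ℕ} (x : ℝ) (y : Fin ℓ → ℝ) (hx : x = 1 ∨ x = -1)
    (hy : ∀ j, y j = 1 ∨ y j = -1) (hne : ¬ (x = -1 ∧ ∀ j, y j = -1)) :
    -((ℓ : ℝ) - 1) ≤ x + ∑ j, y j := by
  have hlow : ∀ j, -1 ≤ y j := fun j => by rcases hy j with h | h <;> rw [h] <;> norm_num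
  have hsum : -(ℓ : ℝ) ≤ ∑ j, y j := by
    have := Finset.card_nsmul_le_sum (univ : Finset (Fin ℓ)) y (-1) (fun j _ => hlow j)
    simpa using this
  rcases hx with hx | hx
  · rw [hx]
    linarith
  · have : ∃ j, y j ≠ -1 := by
      by_contra hcon
      push Not at hcon
      exact hne ⟨hx, hcon⟩
    obtain ⟨j₀, hj₀⟩ := this
    have hj1 : y j₀ = 1 := (hy j₀).resolve_right hj₀
    have h2 : ∑ j, y j = y j₀ + ∑ j ∈ univ.erase j₀, y j := by
      rw [add_sum_erase _ _ (mem_univ _)]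
    have h3 := Finset.card_nsmul_le_sum (univ.erase j₀ : Finset (Fin ℓ)) y (-1) (fun j _ => hlow j)
    have h4 : ((univ.erase j₀ : Finset (Fin ℓ)).card : ℝ) = (ℓ : ℝ) - 1 := by
      rw [card_erase_of_mem (mem_univ _)]
      simp only [card_univ, Fintype.card_fin]
      have : 1 ≤ ℓ := by
        rcases Nat.eq_zero_or_pos ℓ with h0 | h0
        · subst h0; exact j₀.elim0
        · exact h0
      push_cast [Nat.cast_sub this]; ring
    rw [nsmul_eq_mul, h4] at h3
    rw [h2, hj1, hx]; linarith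

/-- Partial sums. -/
noncomputable def S (G : ℕ → ℝ) (M : ℕ) : ℝ := ∑ n ∈ Ioc 0 M, G n

lemma S_succ (G : ℕ → ℝ) (M : ℕ) : S G (M + 1) = S G M + G (M + 1) := by
  unfold S
  rw [Finset.sum_Ioc_succ_top (Nat.zero_le M)]

lemma S_zero (G : ℕ → ℝ) : S G 0 = 0 := by simp [S]

lemma S_diff (G : ℕ → ℝ) (hG : ∀ n, |G n| ≤ 1) (M t : ℕ) : |S G (M + t) - S G M| ≤ t := by
  induction t with
  | zero => simp
  | succ t ih =>
    rw [← add_assoc, S_succ]
    have := hG (M + t + 1)
    push_cast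
    calc |S G (M + t) + G (M + t + 1) - S G M| = |(S G (M + t) - S G M) + G (M + t + 1)| := by ring_nf
      _ ≤ |S G (M + t) - S G M| + |G (M + t + 1)| := abs_add_le _ _
      _ ≤ t + 1 := by linarith

lemma S_abs (G : ℕ → ℝ) (hG : ∀ n, |G n| ≤ 1) (t : ℕ) : |S G t| ≤ t := by
  have := S_diff G hG 0 t
  simpa [S_zero] using this

/-- Shifted sums along a progression. -/
lemma shift_sum (K : ℕ → ℝ) (M t : ℕ) :
    ∑ m ∈ Ioc 0 M, K (m + t) = S K (M + t) - S K t := by
  induction M with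
  | zero => simp
  | succ M ih =>
    rw [Finset.sum_Ioc_succ_top (Nat.zero_le M), ih]
    have : M + 1 + t = (M + t) + 1 := by ring
    rw [this, S_succ]; ring

lemma shift_bound (K : ℕ → ℝ) (hK : ∀ n, |K n| ≤ 1) (M t : ℕ) :
    |∑ m ∈ Ioc 0 M, K (m + t) - S K M| ≤ 2 * t := by
  rw [shift_sum]
  have h1 := S_diff K hK M t
  have h2 := S_abs K hK t
  calc |S K (M + t) - S K t - S K M| = |(S K (M + t) - S K M) - S K t| := by ring_nf
    _ ≤ |S K (M + t) - S K M| + |S K t| := abs_sub _ _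
    _ ≤ 2 * t := by linarith

/-- Splitting into even and odd places. -/
lemma S_two_mul (G : ℕ → ℝ) (M : ℕ) :
    S G (2 * M) = S (fun m => G (2 * m)) M + S (fun m => G (2 * m - 1)) M := by
  induction M with
  | zero => simp [S_zero]
  | succ M ih =>
    have h3 : 2 * (M + 1) = 2 * M + 1 + 1 := by ring
    have h2 : 2 * (M + 1) - 1 = 2 * M + 1 := by omega
    have e1 : S (fun m => G (2 * m)) (M + 1) = S (fun m => G (2 * m)) M + G (2 * M + 1 + 1) := by
      rw [S_succ, ← h3]
    have e2 : S (fun m => G (2 * m - 1)) (M + 1)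
        = S (fun m => G (2 * m - 1)) M + G (2 * M + 1) := by
      rw [S_succ, ← h2]
    rw [e1, e2, h3, S_succ, S_succ, ih]
    ring

/-- The core estimate for one dyadic block, in abstract form. -/
lemma block {ℓ : ℕ} (h : Fin ℓ → ℕ) (H : ℕ) (hH : ∀ j, h j ≤ H) (a : ℕ)
    (haE : (univ.filter (fun j => Even (h j))).card ≤ a)
    (haO : (univ.filter (fun j => ¬ Even (h j))).card ≤ a)
    (G : ℕ → ℝ) (hG : ∀ n, |G n| ≤ 1)
    (hp : ∀ m, m ≠ 0 → -((ℓ : ℝ) - 1) ≤ G m + ∑ j, G (2 * m + h j))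
    (M₁ M₂ : ℕ) (hM : M₂ ≤ M₁) :
    -(2 * (a : ℝ) - 1) * ((M₁ : ℝ) - M₂) - 2 * ℓ * (H + 1)
      ≤ (S G M₁ - S G M₂) + a * (S G (2 * M₁) - S G (2 * M₂)) := by
  classical
  set E : ℕ → ℝ := S (fun m => G (2 * m)) with hE
  set O : ℕ → ℝ := S (fun m => G (2 * m - 1)) with hO
  -- approximations of the shifted sums
  have happ : ∀ j : Fin ℓ, ∀ M : ℕ,
      |∑ m ∈ Ioc 0 M, G (2 * m + h j) - (if Even (h j) then E M else O M)| ≤ (H : ℝ) + 1 := by
    intro j M
    have hj : (h j : ℝ) ≤ H := by exact_mod_cast hH j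
    split_ifs with hev
    · obtain ⟨t, ht⟩ := hev
      have h1 := shift_bound (fun m => G (2 * m)) (fun n => hG _) M t
      have h2 : ∀ m ∈ Ioc 0 M, G (2 * m + h j) = (fun m => G (2 * m)) (m + t) := by
        intro m _
        simp only
        congr 1; omega
      rw [sum_congr rfl h2]
      have h3 : (h j : ℝ) = 2 * t := by rw [ht]; push_cast; ring
      calc _ ≤ 2 * (t : ℝ) := h1
        _ ≤ (H : ℝ) + 1 := by linarith
    · rw [Nat.not_even_iff_odd] at hev
      obtain ⟨t, ht⟩ := hev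
      have h1 := shift_bound (fun m => G (2 * m - 1)) (fun n => hG _) M (t + 1)
      have h2 : ∀ m ∈ Ioc 0 M, G (2 * m + h j) = (fun m => G (2 * m - 1)) (m + (t + 1)) := by
        intro m _
        simp only
        congr 1; omega
      rw [sum_congr rfl h2]
      have h3 : (h j : ℝ) = 2 * t + 1 := by rw [ht]; push_cast; ring
      calc _ ≤ 2 * ((t + 1 : ℕ) : ℝ) := h1
        _ ≤ (H : ℝ) + 1 := by push_cast; linarith
  -- the summed inequality over `Ioc M₂ M₁`
  have hsplit : ∀ K : ℕ → ℝ, ∑ m ∈ Ioc M₂ M₁, K m = ∑ m ∈ Ioc 0 M₁, K m - ∑ m ∈ Ioc 0 M₂, K m := by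
    intro K
    have : ∑ m ∈ Ioc 0 M₁, K m = ∑ m ∈ Ioc 0 M₂, K m + ∑ m ∈ Ioc M₂ M₁, K m := by
      rw [← Finset.sum_Ioc_consecutive K (Nat.zero_le _) hM]
    rw [this]; ring
  have hsum : -((ℓ : ℝ) - 1) * ((M₁ : ℝ) - M₂)
      ≤ ∑ m ∈ Ioc M₂ M₁, (G m + ∑ j, G (2 * m + h j)) := by
    have h1 : ∀ m ∈ Ioc M₂ M₁, -((ℓ : ℝ) - 1) ≤ G m + ∑ j, G (2 * m + h j) := by
      intro m hm
      rw [mem_Ioc] at hm
      exact hp m (by omega)
    have h2 := Finset.card_nsmul_le_sum (Ioc M₂ M₁) _ _ h1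
    rw [nsmul_eq_mul, Nat.card_Ioc, Nat.cast_sub hM] at h2
    linarith
  rw [sum_add_distrib, sum_comm, hsplit G] at hsum
  have hterm : ∀ j : Fin ℓ, ∑ m ∈ Ioc M₂ M₁, G (2 * m + h j)
      ≤ (if Even (h j) then E M₁ - E M₂ else O M₁ - O M₂) + 2 * ((H : ℝ) + 1) := by
    intro j
    rw [hsplit (fun m => G (2 * m + h j))]
    have h1 := abs_le.mp (happ j M₁)
    have h2 := abs_le.mp (happ j M₂)
    split_ifs at h1 h2 ⊢ with hev
    · linarith [h1.2, h2.1]
    · linarith [h1.2, h2.1]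
  have hsum2 : ∑ j : Fin ℓ, ∑ m ∈ Ioc M₂ M₁, G (2 * m + h j)
      ≤ ∑ j : Fin ℓ, ((if Even (h j) then E M₁ - E M₂ else O M₁ - O M₂) + 2 * ((H : ℝ) + 1)) :=
    sum_le_sum fun j _ => hterm j
  rw [sum_add_distrib, sum_ite, sum_const, sum_const, sum_const, nsmul_eq_mul, nsmul_eq_mul,
    nsmul_eq_mul, card_univ, Fintype.card_fin] at hsum2
  set A : ℕ := (univ.filter (fun j => Even (h j))).card with hA
  set B : ℕ := (univ.filter (fun j => ¬ Even (h j))).card with hB
  have hAB : (A : ℝ) + B = ℓ := by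
    have := Finset.card_filter_add_card_filter_not (s := (univ : Finset (Fin ℓ)))
      (fun j => Even (h j))
    rw [card_univ, Fintype.card_fin] at this
    exact_mod_cast this
  have hAa : (A : ℝ) ≤ a := by exact_mod_cast haE
  have hBa : (B : ℝ) ≤ a := by exact_mod_cast haO
  have hMM : ((M₁ : ℝ) - M₂) = ((M₁ - M₂ : ℕ) : ℝ) := by rw [Nat.cast_sub hM]
  have hM0 : 0 ≤ ((M₁ : ℝ) - M₂) := by rw [hMM]; positivity
  have hEd : -((M₁ : ℝ) - M₂) ≤ E M₁ - E M₂ := by
    have := S_diff (fun m => G (2 * m)) (fun n => hG _) M₂ (M₁ - M₂)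
    rw [Nat.add_sub_cancel' hM, ← hMM] at this
    exact (abs_le.mp this).1
  have hOd : -((M₁ : ℝ) - M₂) ≤ O M₁ - O M₂ := by
    have := S_diff (fun m => G (2 * m - 1)) (fun n => hG _) M₂ (M₁ - M₂)
    rw [Nat.add_sub_cancel' hM, ← hMM] at this
    exact (abs_le.mp this).1
  have e1 := S_two_mul G M₁
  have e2 := S_two_mul G M₂
  rw [e1, e2]
  have k1 : -((a : ℝ) - A) * ((M₁ : ℝ) - M₂) ≤ ((a : ℝ) - A) * (E M₁ - E M₂) := by
    have := mul_le_mul_of_nonneg_left hEd (sub_nonneg.mpr hAa)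
    linarith
  have k2 : -((a : ℝ) - B) * ((M₁ : ℝ) - M₂) ≤ ((a : ℝ) - B) * (O M₁ - O M₂) := by
    have := mul_le_mul_of_nonneg_left hOd (sub_nonneg.mpr hBa)
    linarith
  have hS : ∀ M, ∑ m ∈ Ioc 0 M, G m = S G M := fun M => rfl
  rw [hS, hS] at hsum
  have hℓ : (ℓ : ℝ) = A + B := hAB.symm
  rw [hℓ] at hsum hsum2 ⊢
  nlinarith [hsum, hsum2, k1, k2]

/-- The abstract bound: a recursion over dyadic blocks. -/
lemma main_abstract {ℓ : ℕ} (h : Fin ℓ → ℕ) (H : ℕ) (hH : ∀ j, h j ≤ H) (a : ℕ) (ha : 1 ≤ a)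
    (haE : (univ.filter (fun j => Even (h j))).card ≤ a)
    (haO : (univ.filter (fun j => ¬ Even (h j))).card ≤ a)
    (G : ℕ → ℝ) (hG : ∀ n, |G n| ≤ 1)
    (hp : ∀ m, m ≠ 0 → -((ℓ : ℝ) - 1) ≤ G m + ∑ j, G (2 * m + h j)) (N : ℕ) :
    -((2 * (a : ℝ) - 1) / (2 * a + 1)) * N - (4 * H + 7) * (Nat.size N) ≤ S G N := by
  classical
  have ha' : (1 : ℝ) ≤ a := by exact_mod_cast ha
  have ha0 : (0 : ℝ) < a := by linarith
  have hℓa : (ℓ : ℝ) ≤ 2 * a := by
    have := Finset.card_filter_add_card_filter_not (s := (univ : Finset (Fin ℓ)))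
      (fun j => Even (h j))
    rw [card_univ, Fintype.card_fin] at this
    have : ℓ ≤ 2 * a := by omega
    exact_mod_cast this
  induction N using Nat.strong_induction_on with
  | _ N ih =>
    rcases Nat.eq_zero_or_pos N with h0 | hN
    · subst h0; simp [S_zero]
    · set M₁ := N / 2 with hM₁
      set M₂ := M₁ / 2 with hM₂
      have hlt1 : M₁ < N := by omega
      have hlt2 : M₂ < N := by omega
      have hle : M₂ ≤ M₁ := by omega
      have ih1 := ih M₁ hlt1
      have ih2 := ih M₂ hlt2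
      have hb := block h H hH a haE haO G hG hp M₁ M₂ hle
      -- size bounds
      have hsz1 : Nat.size M₁ + 1 ≤ Nat.size N := by
        have : M₁ < 2 ^ (Nat.size N - 1) := by
          have hN2 : N < 2 ^ Nat.size N := Nat.lt_size_self N
          have hpos : 0 < Nat.size N := Nat.size_pos.mpr hN
          obtain ⟨s, hs⟩ : ∃ s, Nat.size N = s + 1 := ⟨Nat.size N - 1, by omega⟩
          rw [hs] at hN2 ⊢
          rw [pow_succ] at hN2
          simp only [Nat.add_sub_cancel]
          omega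
        have hpos : 0 < Nat.size N := Nat.size_pos.mpr hN
        have := Nat.size_le.mpr this
        omega
      have hsz2 : Nat.size M₂ + 1 ≤ Nat.size N := by
        have := Nat.size_le_size hle
        omega
      -- rounding
      have r1 : |S G N - S G (2 * M₁)| ≤ 1 := by
        have hd := S_diff G hG (2 * M₁) (N - 2 * M₁)
        rw [Nat.add_sub_cancel' (by omega)] at hd
        have : ((N - 2 * M₁ : ℕ) : ℝ) ≤ 1 := by
          have : N - 2 * M₁ ≤ 1 := by omega
          exact_mod_cast this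
        linarith
      have r2 : |S G M₁ - S G (2 * M₂)| ≤ 1 := by
        have hd := S_diff G hG (2 * M₂) (M₁ - 2 * M₂)
        rw [Nat.add_sub_cancel' (by omega)] at hd
        have : ((M₁ - 2 * M₂ : ℕ) : ℝ) ≤ 1 := by
          have : M₁ - 2 * M₂ ≤ 1 := by omega
          exact_mod_cast this
        linarith
      have r1' := (abs_le.mp r1).1
      have r2' := (abs_le.mp r2).2
      have c1 : (2 : ℝ) * M₁ ≤ N := by
        have : 2 * M₁ ≤ N := by omega
        exact_mod_cast this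
      have c2 : (M₁ : ℝ) ≤ 2 * M₂ + 1 := by
        have : M₁ ≤ 2 * M₂ + 1 := by omega
        exact_mod_cast this
      have c3 : (0 : ℝ) ≤ M₁ := by positivity
      have s1 : (Nat.size M₁ : ℝ) + 1 ≤ Nat.size N := by exact_mod_cast hsz1
      have s2 : (Nat.size M₂ : ℝ) + 1 ≤ Nat.size N := by exact_mod_cast hsz2
      set K : ℝ := 4 * H + 7 with hK
      have hH0 : (0 : ℝ) ≤ H := by positivity
      have hKpos : 0 ≤ K := by positivity
      set γ : ℝ := (2 * (a : ℝ) - 1) / (2 * a + 1) with hγ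
      have hden : (0 : ℝ) < 2 * a + 1 := by linarith
      have hγ1 : γ * (2 * a + 1) = 2 * a - 1 := by rw [hγ]; field_simp
      have hγ0 : 0 ≤ γ := by rw [hγ]; apply div_nonneg <;> linarith
      have hγle : γ ≤ 1 := by rw [hγ, div_le_one hden]; linarith
      -- a S(N) ≥ (a-1) S(M₁) + S(M₂) - (2a-1)(M₁-M₂) - 2ℓ(H+1) - 2a
      have m1 : a * (S G (2 * M₁)) ≤ a * (S G N) + a := by nlinarith
      have m2 : a * (S G M₁) ≤ a * (S G (2 * M₂)) + a := by nlinarith
      have hstep : (a - 1) * S G M₁ + S G M₂ - (2 * a - 1) * ((M₁ : ℝ) - M₂)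
          - 2 * ℓ * (H + 1) - 2 * a ≤ a * S G N := by linarith
      have hl2 : 2 * (ℓ : ℝ) * (H + 1) ≤ 4 * a * (H + 1) := by
        have : 2 * (ℓ : ℝ) ≤ 4 * a := by linarith
        exact mul_le_mul_of_nonneg_right this (by linarith)
      -- insert the induction hypotheses
      have q1 : K * (Nat.size M₁ : ℝ) ≤ K * (Nat.size N - 1) :=
        mul_le_mul_of_nonneg_left (by linarith) hKpos
      have q2 : K * (Nat.size M₂ : ℝ) ≤ K * (Nat.size N - 1) :=
        mul_le_mul_of_nonneg_left (by linarith) hKpos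
      have i1 : (a - 1) * (-γ * M₁ - K * (Nat.size N - 1)) ≤ (a - 1) * S G M₁ := by
        apply mul_le_mul_of_nonneg_left _ (by linarith)
        linarith
      have i2 : -γ * M₂ - K * (Nat.size N - 1) ≤ S G M₂ := by linarith
      -- rounding in the main term
      have hmain : (a - 1) * (γ * M₁) + γ * M₂ + (2 * a - 1) * ((M₁ : ℝ) - M₂)
          ≤ a * (γ * N) + a := by
        -- (2a-1-γ)(M₁ - M₂) ≤ (2a-1-γ)(M₁+1)/2
        have d1 : (M₁ : ℝ) - M₂ ≤ (M₁ + 1) / 2 := by linarith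
        have d2 : 0 ≤ 2 * (a : ℝ) - 1 - γ := by linarith
        have d3 := mul_le_mul_of_nonneg_left d1 d2
        have d6 : (2 * (a : ℝ) - 1 - γ) = 2 * a * γ := by linarith
        rw [d6] at d3
        have d5 : a * γ * (2 * M₁) ≤ a * γ * N :=
          mul_le_mul_of_nonneg_left c1 (mul_nonneg ha0.le hγ0)
        have d7 : a * γ ≤ a := by
          have := mul_le_mul_of_nonneg_left hγle ha0.le
          linarith
        have d8 : (2 * (a : ℝ) - 1) * ((M₁ : ℝ) - M₂)
            = 2 * a * γ * (M₁ - M₂) + γ * (M₁ - M₂) := by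
          rw [← d6]; ring
        rw [d8]
        linarith
      have hfinal : a * (-γ * N - K * Nat.size N) ≤ a * S G N := by
        have hK' : a * K = 4 * a * H + 7 * a := by rw [hK]; ring
        have e3 : (a - 1) * (-γ * M₁ - K * (Nat.size N - 1))
            + (-γ * M₂ - K * (Nat.size N - 1))
            = -((a - 1) * (γ * M₁) + γ * M₂) - a * K * Nat.size N + a * K := by ring
        have e4 : a * (-γ * N - K * Nat.size N) = - (a * (γ * N)) - a * K * Nat.size N := by ring
        rw [e4]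
        linarith
      have := le_of_mul_le_mul_left hfinal ha0
      linarith

/-- **Main theorem.** Let `ℓ ≥ 1`, let `h : Fin ℓ → ℕ` be shifts, all at most `H`, and let
`a` be the larger of the number of even shifts and the number of odd shifts. Then for every `N ≥ 1`
the sum over `1 ≤ n ≤ N` of `∏ j, λ (n + h j)` is at least
`-((2a-1)/(2a+1)) N - (4H+7)(log₂ N + 1)`; if moreover `ℓ` is odd, it is at most
`((2a-1)/(2a+1)) N + (4H+7)(log₂ N + 1)`. Here `λ n = (-1) ^ Ω n` is the Liouville function and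
`log₂ N` is the integer part of the binary logarithm. -/
theorem result (ℓ : ℕ) (hℓ : 1 ≤ ℓ) (h : Fin ℓ → ℕ)
    (H : ℕ) (hH : ∀ j, h j ≤ H) (a : ℕ)
    (ha : a = max (Finset.univ.filter (fun j => Even (h j))).card
      (Finset.univ.filter (fun j => ¬ Even (h j))).card)
    (N : ℕ) (hN : 1 ≤ N) :
    (-((2 * (a : ℝ) - 1) / (2 * a + 1)) * N - (4 * H + 7) * (Nat.log 2 N + 1)
      ≤ ∑ n ∈ Finset.Icc 1 N, ∏ j : Fin ℓ, (-1 : ℝ) ^ (ArithmeticFunction.cardFactors (n + h j))) ∧
    (Odd ℓ → ∑ n ∈ Finset.Icc 1 N,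
        ∏ j : Fin ℓ, (-1 : ℝ) ^ (ArithmeticFunction.cardFactors (n + h j))
      ≤ ((2 * (a : ℝ) - 1) / (2 * a + 1)) * N + (4 * H + 7) * (Nat.log 2 N + 1)) := by
  classical
  have hsize : ((Nat.size N : ℕ) : ℝ) = (Nat.log 2 N : ℝ) + 1 := by
    have : Nat.size N = Nat.log 2 N + 1 := by
      apply le_antisymm
      · rw [Nat.size_le]
        exact Nat.lt_pow_succ_log_self (by norm_num) N
      · have : Nat.log 2 N < Nat.size N := by
          rw [Nat.lt_size]
          exact Nat.pow_log_le_self 2 (by omega)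
        omega
    rw [this]; push_cast; ring
  have haE : (Finset.univ.filter (fun j => Even (h j))).card ≤ a := by rw [ha]; exact le_max_left _ _
  have haO : (Finset.univ.filter (fun j => ¬ Even (h j))).card ≤ a := by rw [ha]; exact le_max_right _ _
  have ha1 : 1 ≤ a := by
    have := Finset.card_filter_add_card_filter_not (s := (univ : Finset (Fin ℓ)))
      (fun j => Even (h j))
    rw [card_univ, Fintype.card_fin] at this
    omega
  have hFabs : ∀ n, |F h n| ≤ 1 := by
    intro n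
    have := F_sq h n
    rw [← abs_mul_abs_self] at this
    nlinarith [abs_nonneg (F h n)]
  have hFpm : ∀ n, F h n = 1 ∨ F h n = -1 := by
    intro n
    exact mul_self_eq_one_iff.mp (F_sq h n)
  have hIcc : Finset.Icc 1 N = Finset.Ioc 0 N := by
    ext x; simp only [mem_Icc, mem_Ioc]; omega
  have hSF : ∑ n ∈ Finset.Icc 1 N, ∏ j : Fin ℓ, (-1 : ℝ) ^ (ArithmeticFunction.cardFactors (n + h j))
      = S (F h) N := by
    rw [hIcc]; rfl
  rw [hSF]
  constructor
  · have := main_abstract h H hH a ha1 haE haO (F h) hFabs ?_ N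
    · rw [hsize] at this; exact this
    · intro m hm
      apply sum_signs _ _ (hFpm m) (fun j => hFpm _)
      rintro ⟨h1, h2⟩
      have hid := F_identity h hm
      simp only [h2, h1, prod_const, card_univ, Fintype.card_fin] at hid
      have hne : ((-1 : ℝ)) ^ ℓ ≠ 0 := by
        apply pow_ne_zero; norm_num
      have : (1 : ℝ) = -1 := by
        have := mul_left_cancel₀ hne (show (-1 : ℝ) ^ ℓ * 1 = (-1 : ℝ) ^ ℓ * (-1) by linarith)
        exact this
      norm_num at this
  · intro hodd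
    have := main_abstract h H hH a ha1 haE haO (fun n => - F h n)
      (fun n => by rw [abs_neg]; exact hFabs n) ?_ N
    · rw [hsize] at this
      have hneg : S (fun n => - F h n) N = - S (F h) N := by
        unfold S; rw [sum_neg_distrib]
      rw [hneg] at this
      linarith
    · intro m hm
      apply sum_signs _ _
      · rcases hFpm m with h1 | h1 <;> rw [h1] <;> norm_num
      · intro j
        rcases hFpm (2 * m + h j) with h1 | h1 <;> rw [h1] <;> norm_num
      · rintro ⟨h1, h2⟩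
        have hid := F_identity h hm
        have h1' : F h m = 1 := by linarith
        have h2' : ∀ j, F h (2 * m + h j) = 1 := fun j => by linarith [h2 j]
        simp only [h2', h1', prod_const_one, hodd.neg_one_pow] at hid
        norm_num at hid

end Pool.Agent.Results.MP_e6fa8b_nt.AllOrdersAllScales
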