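import Mathlib
import Pool.Agent.Helper8.Transfer.Weights
import Pool.Agent.Helper8.Classify.Realise
import Pool.Agent.Helper16.Classify.NecessaryLog
import Pool.Agent.Helper20.Classify.ExactOn
import Pool.Agent.Helper20.Classify.LogOfNat

/-!
# Classification of the correlations of functions with the dilation relations of Liouville's function

Let `σ p = ±1` for each prime `p` (for Liouville's function, `σ p = -1`). A function
`f : ℕ → {1, -1}` is called almost multiplicative (with signs `σ`) if for each prime `p` the relation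
`f (p n) = σ p * f n` holds for all `n` outside a set of natural density zero. We determine which
arrays `c q r S` are the correlations of such functions along arithmetic progressions:
exactly those satisfying the obvious conditions (consistency, stationarity, positivity, and the
dilation relation `c (p q) (p r) (p S) = (σ p) ^ |S| * c q r S / p`). It makes no difference whether
one takes logarithmic averages along a sequence, or natural averages at all scales, nor whether
the relations are required to be exact on a sparse set of primes; and the function can be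
chosen such that its products behave as predicted by `c` against any given countable family of
weights of size `n ^ o(1)`, such as products of values of the von Mangoldt function.
-/

namespace Pool.Agent.Results.MP_e6fa8b_nt.Classification

open Finset Filter Topology Pool.Agent.Helper8.Dilation Pool.Agent.Helper8.Order
  Pool.Agent.Helper8.Transfer Pool.Agent.Helper8.Classify

/-- **Main theorem.** For signs `σ p = ±1` and real numbers `c q r S` (`q ≥ 1`, `r ≥ 0`, `S` a finite
set of natural numbers) the following are equivalent: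
* `c` is a joint system (it satisfies the conditions of consistency, stationarity, positivity and
  the dilation relations);
* for some almost multiplicative `f` and some sequence `N k → ∞`,
  `(1 / log (N k)) ∑_{n ≤ N k, n ≡ r (q)} (∏_{s ∈ S} f (n + s)) / n → c q r S` for all `q, r, S`;
* for every set `P` of primes with `∑_{p ∈ P} 1 / p < ∞` and all weights `W i` of size `n ^ o(1)`
  (bounded if `P` is nonempty) there is an almost multiplicative `f`, with `f (p n) = σ p * f n` for all
  `p ∈ P` and `n ≥ 1`, such that `(1 / N) ∑_{n ≤ N, n ≡ r (q)} ∏_{s ∈ S} f (n + s) → c q r S` as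
  `N → ∞` for all `q, r, S`, and such that for some `m : ℕ → ℕ` whose values are eventually divisible by
  every `d ≥ 1`, `(1 / N) ∑_{n ≤ N} W i n * (∏_{s ∈ S} f (n + s) - m n * c (m n) n S) → 0` for all
  `i, S`. -/
theorem result (σ : ℕ → ℝ) (hσ : ∀ p, σ p = 1 ∨ σ p = -1) (c : ℕ → ℕ → Finset ℕ → ℝ) :
    List.TFAE [
      JointSystem σ c,
      ∃ f : ℕ → ℝ, AlmostMult σ f ∧ ∃ N : ℕ → ℕ, Tendsto N atTop atTop ∧
        ∀ (q r : ℕ) (S : Finset ℕ), 1 ≤ q → Tendsto (fun k : ℕ =>
          (∑ n ∈ (Ioc 0 (N k)).filter (fun n => n ≡ r [MOD q]), (∏ s ∈ S, f (n + s)) / n)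
            / Real.log (N k)) atTop (𝓝 (c q r S)),
      ∀ P : Set ℕ, (∀ p ∈ P, p.Prime) → Summable (P.indicator (fun p : ℕ => (1 : ℝ) / p)) →
        ∀ W : ℕ → ℕ → ℝ, (∀ i, Subpoly (W i)) → (P.Nonempty → ∀ i, ∃ B : ℝ, ∀ n, |W i n| ≤ B) →
        ∃ f : ℕ → ℝ, MultOn σ P f ∧ AlmostMult σ f ∧
          (∀ (q r : ℕ) (S : Finset ℕ), 1 ≤ q → Tendsto (fun N : ℕ =>
            (∑ n ∈ (Ioc 0 N).filter (fun n => n ≡ r [MOD q]), ∏ s ∈ S, f (n + s)) / N) atTop
            (𝓝 (c q r S))) ∧
          ∃ m : ℕ → ℕ, (∀ d : ℕ, 1 ≤ d → ∀ᶠ n in atTop, 1 ≤ m n ∧ d ∣ m n) ∧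
            ∀ (i : ℕ) (S : Finset ℕ), Tendsto (fun N : ℕ =>
              (∑ n ∈ Ioc 0 N, W i n * (∏ s ∈ S, f (n + s) - m n * c (m n) n S)) / N) atTop
              (𝓝 0)] := by
  classical
  have hlim : ∀ (x : ℕ → ℝ) (a : ℝ), (∀ ε : ℝ, 0 < ε → ∀ᶠ N : ℕ in atTop, |x N - a * N| ≤ ε * N) →
      Tendsto (fun N : ℕ => x N / N) atTop (𝓝 a) := by
    intro x a h
    rw [Metric.tendsto_nhds]
    intro ε hε
    filter_upwards [h (ε / 2) (by positivity), eventually_ge_atTop 1] with N hN hN1
    have hNpos : (0 : ℝ) < N := by exact_mod_cast hN1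
    have e : x N / N - a = (x N - a * N) / N := by field_simp
    rw [Real.dist_eq, e, abs_div, abs_of_pos hNpos, div_lt_iff₀ hNpos]
    nlinarith
  tfae_have 1 → 3 := by
    intro hc P hP hs W hW hWP
    obtain ⟨f0, hf0, hf0p, hAP, m, hm, hw⟩ := realise σ hσ c hc W (fun i => grow_of_subpoly (hW i))
    -- exact relations
    obtain ⟨f, hfP, hfA, hff0, hfeq⟩ : ∃ f : ℕ → ℝ, MultOn σ P f ∧ AlmostMult σ f ∧
        DZ {n | f n ≠ f0 n} ∧ (¬ P.Nonempty → f = f0) := by
      by_cases hPn : P.Nonempty
      · obtain ⟨f, h1, h2, h3⟩ := exact_on σ hσ P hP hs f0 hf0 hf0p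
        exact ⟨f, h1, h2, h3, fun h => absurd hPn h⟩
      · refine ⟨f0, ⟨hf0, fun p hp => absurd ⟨p, hp⟩ hPn⟩, ⟨hf0, fun p hp =>
          densityZero_of_DZ (hf0p p hp)⟩, ?_, fun _ => rfl⟩
        exact DZ.empty.mono fun n hn => hn rfl
    -- replacing `f0` by `f` against bounded weights
    have hrep : ∀ (w : ℕ → ℝ) (B : ℝ), (∀ n, |w n| ≤ B) → ∀ (S : Finset ℕ) (ε : ℝ), 0 < ε →
        ∀ᶠ N : ℕ in atTop, |∑ n ∈ Ioc 0 N, w n * ∏ s ∈ S, f (n + s)
          - ∑ n ∈ Ioc 0 N, w n * ∏ s ∈ S, f0 (n + s)| ≤ ε * N := by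
      intro w B hB S ε hε
      set C' : ℝ := max B 1 with hC'
      have hC'0 : 0 < C' := by positivity
      have hDZ : DZ {n | w n / C' * ∏ s ∈ S, f (n + s) ≠ w n / C' * ∏ s ∈ S, f0 (n + s)} := by
        have h3 : DZ {n | ∃ s ∈ S, n ∈ {n | n + s ∈ {n | f n ≠ f0 n}}} :=
          DZ.iUnion _ _ (fun s _ => hff0.preimage_add s)
        refine h3.mono ?_
        intro n hn
        by_contra hcon
        apply hn
        congr 1
        refine Finset.prod_congr rfl fun s hs => ?_
        by_contra hk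
        exact hcon ⟨s, hs, hk⟩
      have habs : ∀ (u : ℕ → ℝ), (∀ n, u n = 1 ∨ u n = -1) → ∀ n,
          |w n / C' * ∏ s ∈ S, u (n + s)| ≤ 1 := by
        intro u hu n
        rw [abs_mul, prod_pm S (fun s => u (n + s)) (fun s => hu _), mul_one, abs_div,
          abs_of_pos hC'0, div_le_one hC'0]
        exact (hB n).trans (le_max_left _ _)
      filter_upwards [DZ.avg_close (habs f hfA.1) (habs f0 hf0) hDZ (ε / C') (by positivity)]
        with N h2
      have e1 : ∀ g : ℕ → ℝ, ∑ n ∈ Ioc 0 N, w n * g n = C' * ∑ n ∈ Ioc 0 N, w n / C' * g n := by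
        intro g
        rw [Finset.mul_sum]
        refine Finset.sum_congr rfl fun n _ => ?_
        field_simp
      rw [e1, e1, ← mul_sub, abs_mul, abs_of_pos hC'0]
      calc C' * |∑ n ∈ Ioc 0 N, w n / C' * ∏ s ∈ S, f (n + s)
            - ∑ n ∈ Ioc 0 N, w n / C' * ∏ s ∈ S, f0 (n + s)|
          ≤ C' * (ε / C' * N) := mul_le_mul_of_nonneg_left h2 hC'0.le
        _ = ε * N := by field_simp
    refine ⟨f, hfP, hfA, ?_, m, hm, ?_⟩
    · intro q r S hq
      refine hlim (fun N => ∑ n ∈ (Ioc 0 N).filter (fun n => n ≡ r [MOD q]), ∏ s ∈ S, f (n + s)) _ ?_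
      intro ε hε
      have h1 := hrep (fun n => if n ≡ r [MOD q] then 1 else 0) 1 (fun n => by
        split_ifs <;> simp) S (ε / 2) (by positivity)
      filter_upwards [h1, hAP q r S hq (ε / 2) (by positivity)] with N h2 h3
      have e1 : ∀ g : ℕ → ℝ, ∑ n ∈ Ioc 0 N, (if n ≡ r [MOD q] then (1 : ℝ) else 0) * g n
          = ∑ n ∈ (Ioc 0 N).filter (fun n => n ≡ r [MOD q]), g n := by
        intro g
        rw [Finset.sum_filter]
        refine Finset.sum_congr rfl fun n _ => ?_
        split_ifs <;> ring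
      rw [e1, e1] at h2
      have e2 : ∑ n ∈ (Ioc 0 N).filter (fun n => n ≡ r [MOD q]), ∏ s ∈ S, f (n + s) - c q r S * N
          = (∑ n ∈ (Ioc 0 N).filter (fun n => n ≡ r [MOD q]), ∏ s ∈ S, f (n + s)
            - ∑ n ∈ (Ioc 0 N).filter (fun n => n ≡ r [MOD q]), ∏ s ∈ S, f0 (n + s))
          + (∑ n ∈ (Ioc 0 N).filter (fun n => n ≡ r [MOD q]), ∏ s ∈ S, f0 (n + s) - c q r S * N) := by
        ring
      rw [e2]
      refine (abs_add_le _ _).trans ?_
      linarith
    · intro i S
      refine hlim (fun N => ∑ n ∈ Ioc 0 N, W i n * (∏ s ∈ S, f (n + s) - m n * c (m n) n S)) 0 ?_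
      intro ε hε
      by_cases hPn : P.Nonempty
      · obtain ⟨B, hB⟩ := hWP hPn i
        filter_upwards [hrep (W i) B hB S (ε / 2) (by positivity), hw i S (ε / 2) (by positivity)]
          with N h2 h3
        have e2 : ∑ n ∈ Ioc 0 N, W i n * (∏ s ∈ S, f (n + s) - m n * c (m n) n S) - 0 * N
            = (∑ n ∈ Ioc 0 N, W i n * ∏ s ∈ S, f (n + s) - ∑ n ∈ Ioc 0 N, W i n * ∏ s ∈ S, f0 (n + s))
              + ∑ n ∈ Ioc 0 N, W i n * (∏ s ∈ S, f0 (n + s) - m n * c (m n) n S) := by
          rw [← Finset.sum_sub_distrib, ← Finset.sum_add_distrib, zero_mul, sub_zero]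
          refine Finset.sum_congr rfl fun n _ => ?_
          ring
        rw [e2]
        refine (abs_add_le _ _).trans ?_
        linarith
      · rw [hfeq hPn]
        filter_upwards [hw i S ε hε] with N h3
        rw [zero_mul, sub_zero]
        exact h3
  tfae_have 3 → 2 := by
    intro h
    obtain ⟨f, _, hfA, hAP, _⟩ := h ∅ (by simp) (by simp [summable_zero]) (fun _ _ => 0)
      (fun _ => subpoly_of_bdd 0 (fun n => by simp)) (by simp)
    refine ⟨f, hfA, fun k => k, tendsto_id, fun q r S hq => ?_⟩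
    have h1 := log_of_nat (fun n => if n ≡ r [MOD q] then ∏ s ∈ S, f (n + s) else 0) (c q r S) (by
      refine (hAP q r S hq).congr fun N => ?_
      rw [Finset.sum_filter])
    refine h1.congr fun N => ?_
    rw [Finset.sum_filter]
    congr 1
    refine Finset.sum_congr rfl fun n _ => ?_
    split_ifs <;> simp
  tfae_have 2 → 1 := by
    rintro ⟨f, hf, N, hN, h⟩
    exact necessary_log σ hσ c f hf N hN h
  tfae_finish

end Pool.Agent.Results.MP_e6fa8b_nt.Classification
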