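import Mathlib
import Pool.Agent.Helper8.DilationLib

/-!
# A barrier for even-order Chowla: dilation relations do not see even correlations

The Liouville function satisfies `λ (p n) = - λ n` for all primes `p` and all `n ≥ 1`.
Call `f : ℕ → {1, -1}` *almost Liouville* if for each prime `p` the relation `f (p n) = - f n` holds
for all `n` outside a set of natural density zero. We show that almost Liouville functions can have
the same even-order correlations as an arbitrary completely multiplicative function `F` with values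
`±1`, e.g. `F = 1`; one can even ask for `f (p n) = - f n` for *all* `n ≥ 1` and all `p` in a given
set `P` of primes with `∑_{p ∈ P} 1 / p < ∞`. So the dilation relations, used off density-zero
sets, and exactly on a sparse set of primes, yield no nontrivial upper bound for any even-order
correlation.
-/

namespace Pool.Agent.Results.MP_e6fa8b_nt.DilationBarrier

open Finset Filter Topology Pool.Agent.Helper8.Dilation

/-- **Main theorem.** Let `P` be a set of primes with `∑_{p ∈ P} 1/p < ∞` (possibly empty), and let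
`F` be completely multiplicative with values `±1`. There is an almost Liouville function `f`, with
`f (p * n) = - f n` for all `p ∈ P` and all `n ≥ 1`, such that for every even order `ℓ` and all shifts
the difference of the averages of `∏ j, f (n + h j)` and of `∏ j, F (n + h j)` tends to `0`; and if
`F = 1`, then all even-order averages of `f` tend to `1` and all odd-order averages tend to `0`. -/
theorem result (P : Set ℕ) (hP : ∀ p ∈ P, p.Prime)
    (hs : Summable (P.indicator (fun p : ℕ => (1 : ℝ) / p))) (F : ℕ → ℝ) (hF : CompMult F) :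
    ∃ f : ℕ → ℝ, LiouvilleOn P f ∧ AlmostLiouville f ∧
      (∀ (ℓ : ℕ) (h : Fin ℓ → ℕ), Even ℓ →
        Tendsto (fun N : ℕ => avg f h N - avg F h N) atTop (𝓝 0)) ∧
      ((∀ n, F n = 1) → ∀ (ℓ : ℕ) (h : Fin ℓ → ℕ),
        (Even ℓ → Tendsto (avg f h) atTop (𝓝 1)) ∧ (Odd ℓ → Tendsto (avg f h) atTop (𝓝 0))) := by
  classical
  obtain ⟨f, c, hf, hfA, hcpm, hc, hfc, hcp⟩ := basic P hP hs F hF
  have even_pow : ∀ ℓ, Even ℓ → ∀ n, c n ^ ℓ = 1 := by
    intro ℓ hℓ n
    rcases hcpm n with h | h <;> rw [h]
    · exact one_pow ℓ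
    · exact hℓ.neg_one_pow
  have odd_pow : ∀ ℓ, Odd ℓ → ∀ n, c n ^ ℓ = c n := by
    intro ℓ hℓ n
    rcases hcpm n with h | h <;> rw [h]
    · exact one_pow ℓ
    · exact hℓ.neg_one_pow
  -- products agree off density zero
  have prodDZ : ∀ (ℓ : ℕ) (h : Fin ℓ → ℕ),
        DZ {n | ∏ j, f (n + h j) ≠ (∏ j, F (n + h j)) * c n ^ ℓ} := by
    intro ℓ h
    have h1 : DZ {n | ∃ j ∈ (Finset.univ : Finset (Fin ℓ)), n ∈ {n | c (n + h j) ≠ c n}} :=
      DZ.iUnion _ _ (fun j _ => hc (h j))
    have h2 : DZ {n | ∃ j ∈ (Finset.univ : Finset (Fin ℓ)), n ∈ {n | n + h j ∈ {n | f n ≠ F n * c n}}} :=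
      DZ.iUnion _ _ (fun j _ => hfc.preimage_add (h j))
    refine (h1.union h2).mono ?_
    intro n hn
    by_contra hcon
    apply hn
    have e : ∀ j, f (n + h j) = F (n + h j) * c n := by
      intro j
      have k1 : c (n + h j) = c n := by
        by_contra hk; exact hcon (Or.inl ⟨j, Finset.mem_univ j, hk⟩)
      have k2 : f (n + h j) = F (n + h j) * c (n + h j) := by
        by_contra hk; exact hcon (Or.inr ⟨j, Finset.mem_univ j, hk⟩)
      rw [k2, k1]
    simp_rw [e]
    rw [Finset.prod_mul_distrib]; simp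
  have evenlim : ∀ (ℓ : ℕ) (h : Fin ℓ → ℕ), Even ℓ →
      Tendsto (fun N : ℕ => avg f h N - avg F h N) atTop (𝓝 0) := by
    intro ℓ h hℓ
    have h2 : DZ {n | ∏ j, f (n + h j) ≠ ∏ j, F (n + h j)} := by
      refine (prodDZ ℓ h).mono ?_
      intro n hn hcon
      apply hn
      rw [hcon, even_pow ℓ hℓ n, mul_one]
    exact avg_tendsto (prod_abs f hf.1 h) (prod_abs F hF.1 h) h2
  refine ⟨f, hf, hfA, evenlim, fun hone ℓ h => ⟨fun hℓ => ?_, fun hℓ => ?_⟩⟩
  · have h1 := evenlim ℓ h hℓ
    have h2 : Tendsto (fun N : ℕ => avg F h N) atTop (𝓝 1) := by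
      refine tendsto_const_nhds.congr' ?_
      filter_upwards [eventually_ge_atTop 1] with N hN1
      have hNpos : (0 : ℝ) < N := by exact_mod_cast hN1
      unfold avg
      simp only [hone, Finset.prod_const_one, Finset.sum_const, Nat.card_Ioc, Nat.sub_zero,
        nsmul_eq_mul, mul_one]
      exact (div_self hNpos.ne').symm
    have h3 := h1.add h2
    rw [zero_add] at h3
    refine h3.congr fun N => ?_
    ring
  · have h2 : DZ {n | ∏ j, f (n + h j) ≠ c n} := by
      refine (prodDZ ℓ h).mono ?_
      intro n hn hcon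
      apply hn
      rw [hcon, odd_pow ℓ hℓ n]
      simp [hone]
    have hcabs : ∀ n, |c n| ≤ 1 := fun n => abs_of_pm (hcpm n)
    have h3 := avg_tendsto (prod_abs f hf.1 h) hcabs h2
    have h4 : Tendsto (fun N : ℕ => (∑ n ∈ Ioc 0 N, c n) / N) atTop (𝓝 0) := by
      have hm := mean_zero c hcpm (hc 1)
        ((hcp 2 Nat.prime_two).mono fun n hn => by
          intro hcon; apply hn; rw [hcon, hone]; ring)
        ((hcp 3 Nat.prime_three).mono fun n hn => by
          intro hcon; apply hn; rw [hcon, hone]; ring)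
      rw [Metric.tendsto_nhds]
      intro ε hε
      filter_upwards [hm (ε / 2) (by positivity), eventually_ge_atTop 1] with N hN hN1
      have hNpos : (0 : ℝ) < N := by exact_mod_cast hN1
      rw [Real.dist_eq, sub_zero, abs_div, abs_of_pos hNpos]
      have : |∑ n ∈ Ioc 0 N, c n| / N ≤ ε / 2 := by
        rw [div_le_iff₀ hNpos]; exact hN
      linarith
    have h5 := h3.add h4
    rw [zero_add] at h5
    refine h5.congr fun N => ?_
    unfold avg
    ring

end Pool.Agent.Results.MP_e6fa8b_nt.DilationBarrier
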