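import Mathlib

/-!
# One-sided even-order Chowla on a set of shifts implies Chowla's conjecture

For shifts `h : Fin ℓ → ℕ` let `avg h x` be the average over `1 ≤ n ≤ x` of `∏ j, λ (n + h j)`,
where `λ n = (-1) ^ Ω n` is the Liouville function.
-/

namespace Pool.Agent.Helper8.Shelved.OneSidedReduction

open Finset Filter Topology

/-- The Liouville function, as a real number. -/
noncomputable def lam (n : ℕ) : ℝ := (-1 : ℝ) ^ (ArithmeticFunction.cardFactors n)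

/-- The average in Q1 for `k = 0`: `avg h x = (1 / ⌊x⌋) ∑_{1 ≤ n ≤ x} ∏ j, λ (n + h j)`. -/
noncomputable def avg {ℓ : ℕ} (h : Fin ℓ → ℕ) (x : ℝ) : ℝ :=
  (1 / (⌊x⌋₊ : ℝ)) * ∑ n ∈ Finset.Icc 1 ⌊x⌋₊, ∏ j : Fin ℓ, lam (n + h j)

/-- `S` contains, for every finite set `A`, infinitely many translates of one dilate of `A`. -/
def Rich (S : Set ℕ) : Prop :=
  ∀ A : Finset ℕ, ∃ d : ℕ, 1 ≤ d ∧ {c : ℕ | ∀ a ∈ A, c + d * a ∈ S}.Infinite

lemma lam_sq (n : ℕ) : lam n * lam n = 1 := by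
  unfold lam
  rw [← mul_pow]; norm_num

lemma lam_mul {m n : ℕ} (hm : m ≠ 0) (hn : n ≠ 0) : lam (m * n) = lam m * lam n := by
  unfold lam
  rw [ArithmeticFunction.cardFactors_mul hm hn, pow_add]

/-- Product of Liouville values over a finite set of shifts. -/
noncomputable def P (A : Finset ℕ) (n : ℕ) : ℝ := ∏ a ∈ A, lam (n + a)

lemma P_sq (A : Finset ℕ) (n : ℕ) : P A n * P A n = 1 := by
  unfold P
  rw [← prod_mul_distrib]
  exact prod_eq_one fun i _ => lam_sq _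

lemma P_abs (A : Finset ℕ) (n : ℕ) : |P A n| = 1 := by
  rcases mul_self_eq_one_iff.mp (P_sq A n) with h | h <;> rw [h] <;> simp

lemma P_symmDiff (A B : Finset ℕ) (n : ℕ) : P A n * P B n = P (symmDiff A B) n := by
  unfold P
  have hA : ∏ a ∈ A, lam (n + a) = (∏ a ∈ A \ B, lam (n + a)) * ∏ a ∈ A ∩ B, lam (n + a) := by
    rw [mul_comm]
    exact (prod_inter_mul_prod_sdiff A B _).symm
  have hB : ∏ a ∈ B, lam (n + a) = (∏ a ∈ B \ A, lam (n + a)) * ∏ a ∈ A ∩ B, lam (n + a) := by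
    rw [mul_comm, inter_comm]
    exact (prod_inter_mul_prod_sdiff B A _).symm
  have hsq : (∏ a ∈ A ∩ B, lam (n + a)) * ∏ a ∈ A ∩ B, lam (n + a) = 1 := by
    rw [← prod_mul_distrib]
    exact prod_eq_one fun i _ => lam_sq _
  have hS : ∏ a ∈ symmDiff A B, lam (n + a)
      = (∏ a ∈ A \ B, lam (n + a)) * ∏ a ∈ B \ A, lam (n + a) := by
    rw [symmDiff_def, sup_eq_union, prod_union]
    exact disjoint_sdiff_sdiff
  rw [hA, hB, hS]
  calc _ = (∏ a ∈ A \ B, lam (n + a)) * (∏ a ∈ B \ A, lam (n + a))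
        * ((∏ a ∈ A ∩ B, lam (n + a)) * ∏ a ∈ A ∩ B, lam (n + a)) := by ring
    _ = _ := by rw [hsq, mul_one]

/-- Translate of a finite set. -/
def tr (A : Finset ℕ) (c : ℕ) : Finset ℕ := A.image (fun a => c + a)

lemma P_tr (A : Finset ℕ) (c n : ℕ) : P (tr A c) n = P A (n + c) := by
  unfold P tr
  rw [prod_image (by intro a _ b _ h; simpa using h)]
  refine prod_congr rfl fun a _ => ?_
  rw [add_assoc]

/-- Dilate of a finite set. -/
def dil (A : Finset ℕ) (d : ℕ) : Finset ℕ := A.image (fun a => d * a)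

lemma P_dil (A : Finset ℕ) {d m : ℕ} (hd : d ≠ 0) (hm : m ≠ 0) :
    P (dil A d) (d * m) = lam d ^ A.card * P A m := by
  unfold P dil
  rw [prod_image (by intro a _ b _ h; exact Nat.eq_of_mul_eq_mul_left (Nat.pos_of_ne_zero hd) h)]
  rw [← prod_const, ← prod_mul_distrib]
  refine prod_congr rfl fun a _ => ?_
  rw [← mul_add, lam_mul hd (by omega)]

/-- Shifting the summation range changes a sum of bounded terms by a bounded amount. -/
lemma shift_bound (K : ℕ → ℝ) (hK : ∀ n, |K n| ≤ 1) (M t : ℕ) :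
    |∑ m ∈ Icc 1 M, K (m + t) - ∑ m ∈ Icc 1 M, K m| ≤ 2 * t := by
  induction t with
  | zero => simp
  | succ t ih =>
    have h1 : ∑ m ∈ Icc 1 M, K (m + (t + 1)) - ∑ m ∈ Icc 1 M, K (m + t)
        = K (M + (t + 1)) - K (1 + t) := by
      clear ih
      induction M with
      | zero => simp [add_comm]
      | succ M ih2 =>
        rw [Finset.sum_Icc_succ_top (by omega), Finset.sum_Icc_succ_top (by omega)]
        have : M + 1 + t = M + (t + 1) := by ring
        rw [this]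
        linarith
    have h2 : |K (M + (t + 1)) - K (1 + t)| ≤ 2 := by
      have := abs_sub (K (M + (t + 1))) (K (1 + t))
      have a1 := hK (M + (t + 1))
      have a2 := hK (1 + t)
      linarith
    have h3 : ∑ m ∈ Icc 1 M, K (m + (t + 1)) - ∑ m ∈ Icc 1 M, K m
        = (∑ m ∈ Icc 1 M, K (m + (t + 1)) - ∑ m ∈ Icc 1 M, K (m + t))
          + (∑ m ∈ Icc 1 M, K (m + t) - ∑ m ∈ Icc 1 M, K m) := by ring
    rw [h3]
    refine (abs_add_le _ _).trans ?_
    rw [h1]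
    push_cast
    linarith

lemma sq_sum_eq (T : Finset ℕ) (u : ℕ → ℝ) :
    (∑ t ∈ T, u t) ^ 2 = ∑ t ∈ T, u t * u t + ∑ p ∈ T.offDiag, u p.1 * u p.2 := by
  rw [sq, sum_mul_sum, ← sum_product', ← diag_union_offDiag,
    sum_union (disjoint_diag_offDiag T), sum_diag]

/-- The quantitative van der Corput type inequality. -/
lemma key (A : Finset ℕ) (d : ℕ) (hd : 1 ≤ d) (c₀ : ℕ) (T : Finset ℕ) (x : ℕ) :
    (T.card : ℝ) ^ 2 * (∑ m ∈ Icc 1 x, P A m) ^ 2
      ≤ 2 * x * (T.card * (d * x) + ∑ p ∈ T.offDiag,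
          (∑ n ∈ Icc 1 (d * x), P (symmDiff (tr (dil A d) (c₀ + d * p.1))
            (tr (dil A d) (c₀ + d * p.2))) n + 2 * c₀))
        + 8 * (∑ t ∈ T, (t : ℝ)) ^ 2 := by
  classical
  set D := dil A d with hD
  have hd0 : d ≠ 0 := by omega
  -- reduce to the dilated product
  set s₀ : ℝ := ∑ m ∈ Icc 1 x, P D (d * m) with hs₀
  have hsq : (∑ m ∈ Icc 1 x, P A m) ^ 2 = s₀ ^ 2 := by
    have h1 : s₀ = lam d ^ A.card * ∑ m ∈ Icc 1 x, P A m := by
      rw [hs₀, mul_sum]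
      refine sum_congr rfl fun m hm => ?_
      rw [mem_Icc] at hm
      exact P_dil A hd0 (by omega)
    have h2 : (lam d ^ A.card) ^ 2 = 1 := by
      rw [← pow_mul, mul_comm, pow_mul, sq, lam_sq, one_pow]
    rw [h1, mul_pow, h2, one_mul]
  rw [hsq]
  set s : ℕ → ℝ := fun t => ∑ m ∈ Icc 1 x, P D (d * (m + t)) with hs
  have hst : ∀ t, |s t - s₀| ≤ 2 * t := fun t =>
    shift_bound (fun m => P D (d * m)) (fun n => (P_abs D _).le) x t
  -- first step
  have h1 : (T.card : ℝ) * s₀ = ∑ t ∈ T, s t - ∑ t ∈ T, (s t - s₀) := by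
    rw [sum_sub_distrib, sum_const, nsmul_eq_mul]; ring
  have h2 : |∑ t ∈ T, (s t - s₀)| ≤ 2 * ∑ t ∈ T, (t : ℝ) := by
    calc |∑ t ∈ T, (s t - s₀)| ≤ ∑ t ∈ T, |s t - s₀| := abs_sum_le_sum_abs _ _
      _ ≤ ∑ t ∈ T, 2 * (t : ℝ) := sum_le_sum fun t _ => hst t
      _ = _ := by rw [mul_sum]
  have h3 : (T.card : ℝ) ^ 2 * s₀ ^ 2
      ≤ 2 * (∑ t ∈ T, s t) ^ 2 + 8 * (∑ t ∈ T, (t : ℝ)) ^ 2 := by
    have h4 : (∑ t ∈ T, (s t - s₀)) ^ 2 ≤ (2 * ∑ t ∈ T, (t : ℝ)) ^ 2 := by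
      rw [← sq_abs]
      exact pow_le_pow_left₀ (abs_nonneg _) h2 2
    have h5 : (T.card : ℝ) ^ 2 * s₀ ^ 2 = ((T.card : ℝ) * s₀) ^ 2 := by ring
    rw [h5, h1]
    nlinarith [sq_nonneg (∑ t ∈ T, s t + ∑ t ∈ T, (s t - s₀))]
  refine h3.trans ?_
  have h6 : (∑ t ∈ T, s t) ^ 2 ≤ x * (T.card * (d * x) + ∑ p ∈ T.offDiag,
          (∑ n ∈ Icc 1 (d * x), P (symmDiff (tr D (c₀ + d * p.1))
            (tr D (c₀ + d * p.2))) n + 2 * c₀)) := by
    have e1 : ∑ t ∈ T, s t = ∑ m ∈ Icc 1 x, ∑ t ∈ T, P D (d * m + d * t) := by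
      rw [sum_comm]
      refine sum_congr rfl fun t _ => ?_
      refine sum_congr rfl fun m _ => ?_
      rw [mul_add]
    have e2 : (∑ m ∈ Icc 1 x, ∑ t ∈ T, P D (d * m + d * t)) ^ 2
        ≤ x * ∑ m ∈ Icc 1 x, (∑ t ∈ T, P D (d * m + d * t)) ^ 2 := by
      have := sq_sum_le_card_mul_sum_sq (s := Icc 1 x) (f := fun m => ∑ t ∈ T, P D (d * m + d * t))
      simpa using this
    have e3 : ∑ m ∈ Icc 1 x, (∑ t ∈ T, P D (d * m + d * t)) ^ 2
        ≤ ∑ n ∈ Icc 1 (d * x), (∑ t ∈ T, P D (n + d * t)) ^ 2 := by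
      have e4 : ∑ m ∈ Icc 1 x, (∑ t ∈ T, P D (d * m + d * t)) ^ 2
          = ∑ n ∈ (Icc 1 x).image (fun m => d * m), (∑ t ∈ T, P D (n + d * t)) ^ 2 := by
        rw [sum_image]
        intro a _ b _ h
        exact Nat.eq_of_mul_eq_mul_left (Nat.pos_of_ne_zero hd0) h
      rw [e4]
      apply sum_le_sum_of_subset_of_nonneg
      · intro n hn
        rw [mem_image] at hn
        obtain ⟨m, hm, rfl⟩ := hn
        rw [mem_Icc] at hm ⊢
        exact ⟨Nat.one_le_iff_ne_zero.mpr (Nat.mul_ne_zero hd0 (by omega)),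
          Nat.mul_le_mul_left d hm.2⟩
      · intro n _ _
        positivity
    have e5 : ∑ n ∈ Icc 1 (d * x), (∑ t ∈ T, P D (n + d * t)) ^ 2
        = T.card * (d * x) + ∑ p ∈ T.offDiag, ∑ n ∈ Icc 1 (d * x),
            P D (n + d * p.1) * P D (n + d * p.2) := by
      have : ∀ n ∈ Icc 1 (d * x), (∑ t ∈ T, P D (n + d * t)) ^ 2
          = (T.card : ℝ) + ∑ p ∈ T.offDiag, P D (n + d * p.1) * P D (n + d * p.2) := by
        intro n _
        rw [sq_sum_eq T (fun t => P D (n + d * t))]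
        congr 1
        rw [sum_congr rfl (fun t _ => P_sq D (n + d * t))]
        simp
      rw [sum_congr rfl this, sum_add_distrib, sum_comm]
      congr 1
      rw [sum_const, Nat.card_Icc, nsmul_eq_mul, Nat.add_sub_cancel]
      push_cast
      ring
    have e6 : ∀ p ∈ T.offDiag, ∑ n ∈ Icc 1 (d * x), P D (n + d * p.1) * P D (n + d * p.2)
        ≤ ∑ n ∈ Icc 1 (d * x), P (symmDiff (tr D (c₀ + d * p.1))
            (tr D (c₀ + d * p.2))) n + 2 * c₀ := by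
      intro p _
      have b1 := shift_bound (fun n => P D (n + d * p.1) * P D (n + d * p.2))
        (fun n => by rw [abs_mul, P_abs, P_abs, mul_one]) (d * x) c₀
      have b2 : ∑ n ∈ Icc 1 (d * x), P (symmDiff (tr D (c₀ + d * p.1)) (tr D (c₀ + d * p.2))) n
          = ∑ m ∈ Icc 1 (d * x), P D (m + c₀ + d * p.1) * P D (m + c₀ + d * p.2) := by
        refine sum_congr rfl fun n _ => ?_
        rw [← P_symmDiff, P_tr, P_tr, ← add_assoc, ← add_assoc]
      rw [b2]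
      have := (abs_le.mp b1).1
      linarith
    rw [e1]
    refine e2.trans ?_
    apply mul_le_mul_of_nonneg_left _ (Nat.cast_nonneg x)
    refine e3.trans ?_
    rw [e5]
    have := sum_le_sum e6
    linarith
  linarith

lemma even_card_symmDiff {A B : Finset ℕ} (h : A.card = B.card) : Even (symmDiff A B).card := by
  have h0 : (symmDiff A B).card = (A \ B).card + (B \ A).card := by
    rw [symmDiff_def, sup_eq_union, card_union_of_disjoint disjoint_sdiff_sdiff]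
  have h1 := card_sdiff_add_card_inter A B
  have h2 := card_sdiff_add_card_inter B A
  rw [inter_comm] at h2
  rw [h0, Nat.even_iff]
  omega

/-- The elementary inequality closing the argument. -/
lemma final_algebra (N₀ X d c₀ Z ε δ s : ℝ) (hN1 : 1 ≤ N₀) (hX1 : 1 ≤ X)
    (hdN : d ≤ N₀ * (ε ^ 2 / 16)) (hδd : δ * d = ε ^ 2 / 16)
    (hLbig : (4 * c₀ + 8 * Z ^ 2) * 4 ≤ ε ^ 2 * X)
    (hkey : N₀ ^ 2 * s ^ 2
      ≤ 2 * X * (N₀ * (d * X) + N₀ ^ 2 * (δ * (d * X) + 2 * c₀)) + 8 * Z ^ 2) :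
    s ^ 2 ≤ (ε * X) ^ 2 := by
  have hX0 : 0 ≤ X := by linarith
  have hN0 : 0 ≤ N₀ := by linarith
  have hN2 : 0 < N₀ ^ 2 := by positivity
  refine le_of_mul_le_mul_left ?_ hN2
  refine hkey.trans ?_
  have t1 : 2 * X * (N₀ * (d * X)) ≤ N₀ ^ 2 * (ε ^ 2 / 8 * X ^ 2) := by
    calc 2 * X * (N₀ * (d * X)) = 2 * (N₀ * X ^ 2) * d := by ring
      _ ≤ 2 * (N₀ * X ^ 2) * (N₀ * (ε ^ 2 / 16)) :=
          mul_le_mul_of_nonneg_left hdN (by positivity)
      _ = _ := by ring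
  have t2 : 2 * X * (N₀ ^ 2 * (δ * (d * X))) = N₀ ^ 2 * (ε ^ 2 / 8 * X ^ 2) := by
    have : δ * (d * X) = ε ^ 2 / 16 * X := by rw [← mul_assoc, hδd]
    rw [this]; ring
  have u1 : 8 * Z ^ 2 ≤ N₀ ^ 2 * (X * (8 * Z ^ 2)) := by
    have v0 : 1 ≤ N₀ ^ 2 := one_le_pow₀ hN1
    have v1 : 1 ≤ N₀ ^ 2 * X := by
      calc (1 : ℝ) = 1 * 1 := by ring
        _ ≤ N₀ ^ 2 * X := mul_le_mul v0 hX1 (by norm_num) hN2.le
    calc 8 * Z ^ 2 = 1 * (8 * Z ^ 2) := by ring
      _ ≤ (N₀ ^ 2 * X) * (8 * Z ^ 2) := mul_le_mul_of_nonneg_right v1 (by positivity)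
      _ = _ := by ring
  have u2 : X * (4 * c₀ + 8 * Z ^ 2) ≤ ε ^ 2 / 4 * X ^ 2 := by
    calc X * (4 * c₀ + 8 * Z ^ 2) = X / 4 * ((4 * c₀ + 8 * Z ^ 2) * 4) := by ring
      _ ≤ X / 4 * (ε ^ 2 * X) := mul_le_mul_of_nonneg_left hLbig (by positivity)
      _ = _ := by ring
  have u3 := mul_le_mul_of_nonneg_left u2 hN2.le
  have t3 : 2 * X * (N₀ ^ 2 * (2 * c₀)) + 8 * Z ^ 2 ≤ N₀ ^ 2 * (ε ^ 2 / 4 * X ^ 2) := by
    calc 2 * X * (N₀ ^ 2 * (2 * c₀)) + 8 * Z ^ 2
        ≤ 2 * X * (N₀ ^ 2 * (2 * c₀)) + N₀ ^ 2 * (X * (8 * Z ^ 2)) := by linarith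
      _ = N₀ ^ 2 * (X * (4 * c₀ + 8 * Z ^ 2)) := by ring
      _ ≤ _ := u3
  have t4 : 0 ≤ N₀ ^ 2 * (ε ^ 2 * X ^ 2) := by positivity
  have e1 : 2 * X * (N₀ * (d * X) + N₀ ^ 2 * (δ * (d * X) + 2 * c₀)) + 8 * Z ^ 2
      = 2 * X * (N₀ * (d * X)) + 2 * X * (N₀ ^ 2 * (δ * (d * X)))
        + (2 * X * (N₀ ^ 2 * (2 * c₀)) + 8 * Z ^ 2) := by ring
  have e2 : N₀ ^ 2 * (ε * X) ^ 2 = N₀ ^ 2 * (ε ^ 2 / 8 * X ^ 2) + N₀ ^ 2 * (ε ^ 2 / 8 * X ^ 2)
      + N₀ ^ 2 * (ε ^ 2 / 4 * X ^ 2) + 1 / 2 * (N₀ ^ 2 * (ε ^ 2 * X ^ 2)) := by ring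
  rw [e1, e2]
  linarith

/-- Finset version of the main theorem. -/
theorem main_finset (S : Set ℕ) (hS : Rich S)
    (hone : ∀ B : Finset ℕ, B.Nonempty → Even B.card → (↑B ⊆ S) → ∀ ε > 0,
      ∀ᶠ N : ℕ in atTop, ∑ n ∈ Icc 1 N, P B n ≤ ε * N)
    (A : Finset ℕ) (hA : A.Nonempty) (ε : ℝ) (hε : 0 < ε) :
    ∀ᶠ N : ℕ in atTop, |∑ n ∈ Icc 1 N, P A n| ≤ ε * N := by
  classical
  obtain ⟨d, hd, hinf⟩ := hS A
  have hd0 : 0 < d := by omega
  have hdR : (1 : ℝ) ≤ d := by exact_mod_cast hd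
  -- an infinite subset in a single residue class
  obtain ⟨r, hr⟩ : ∃ r : Fin d, {c : ℕ | (∀ a ∈ A, c + d * a ∈ S) ∧ c % d = r}.Infinite := by
    by_contra hcon
    push Not at hcon
    apply hinf
    have : {c : ℕ | ∀ a ∈ A, c + d * a ∈ S}
        ⊆ ⋃ r : Fin d, {c : ℕ | (∀ a ∈ A, c + d * a ∈ S) ∧ c % d = r} := by
      intro c hc
      rw [Set.mem_iUnion]
      exact ⟨⟨c % d, Nat.mod_lt _ hd0⟩, hc, rfl⟩
    exact (Set.finite_iUnion fun r => hcon r).subset this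
  set C := {c : ℕ | (∀ a ∈ A, c + d * a ∈ S) ∧ c % d = r} with hC
  obtain ⟨c₀, hc₀⟩ := hr.nonempty
  -- parameters
  obtain ⟨K, hK⟩ := exists_nat_gt (16 * d / ε ^ 2)
  have hε2 : 0 < ε ^ 2 := by positivity
  -- an infinite set of admissible t
  have hTinf : {t : ℕ | c₀ + d * t ∈ C}.Infinite := by
    have h1 : (C ∩ Set.Ici c₀).Infinite := by
      intro hfin
      apply hr
      exact (hfin.union (Set.finite_Iio c₀)).subset fun c hc => by
        rcases lt_or_ge c c₀ with h | h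
        · exact Or.inr h
        · exact Or.inl ⟨hc, h⟩
    intro hfin
    apply h1
    refine (hfin.image (fun t => c₀ + d * t)).subset ?_
    intro c hc
    have hmod : c % d = c₀ % d := by rw [hc.1.2, hc₀.2]
    have hle : c₀ ≤ c := hc.2
    have hdvd : d ∣ c - c₀ := (Nat.modEq_iff_dvd' hle).mp hmod.symm
    obtain ⟨t, ht⟩ := hdvd
    have hct : c₀ + d * t = c := by omega
    exact ⟨t, by rw [Set.mem_ofPred_eq, hct]; exact hc.1, hct⟩
  obtain ⟨T, hTsub, hTcard⟩ := hTinf.exists_subset_card_eq (K + 1)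
  have hTcard' : (T.card : ℝ) = K + 1 := by rw [hTcard]; push_cast; ring
  set N₀ : ℝ := (K : ℝ) + 1 with hN₀
  have hN0pos : 0 < N₀ := by positivity
  -- the cross terms
  set δ : ℝ := ε ^ 2 / (16 * d) with hδ
  have hδpos : 0 < δ := by positivity
  have hcross : ∀ p ∈ T.offDiag, ∀ᶠ X : ℕ in atTop,
      ∑ n ∈ Icc 1 X, P (symmDiff (tr (dil A d) (c₀ + d * p.1)) (tr (dil A d) (c₀ + d * p.2))) n
        ≤ δ * X := by
    intro p hp
    rw [mem_offDiag] at hp
    obtain ⟨hp1, hp2, hne⟩ := hp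
    have m1 : c₀ + d * p.1 ∈ C := hTsub hp1
    have m2 : c₀ + d * p.2 ∈ C := hTsub hp2
    have hcard : ∀ c, (tr (dil A d) c).card = A.card := by
      intro c
      unfold tr dil
      rw [card_image_of_injective _ (add_right_injective c),
        card_image_of_injective _ (fun a b h => Nat.eq_of_mul_eq_mul_left hd0 h)]
    apply hone _ _ _ _ δ hδpos
    · -- nonempty
      rw [symmDiff_nonempty]
      intro heq
      have hmin : ∀ c, ∑ y ∈ tr (dil A d) c, y = A.card * c + ∑ y ∈ dil A d, y := by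
        intro c
        unfold tr
        rw [sum_image (fun a _ b _ h => by simpa using h), sum_add_distrib, sum_const]
        have : (dil A d).card = A.card :=
          card_image_of_injective _ (fun a b h => Nat.eq_of_mul_eq_mul_left hd0 h)
        rw [this, smul_eq_mul]
      have h1 := hmin (c₀ + d * p.1)
      have h2 := hmin (c₀ + d * p.2)
      rw [heq, h2] at h1
      have h3 : A.card * (c₀ + d * p.2) = A.card * (c₀ + d * p.1) := by omega
      have h4 := Nat.eq_of_mul_eq_mul_left hA.card_pos h3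
      have h5 : d * p.2 = d * p.1 := by omega
      exact hne (Nat.eq_of_mul_eq_mul_left hd0 h5).symm
    · -- even
      exact even_card_symmDiff ((hcard _).trans (hcard _).symm)
    · -- inside S
      intro y hy
      have hsub : ∀ c ∈ C, ∀ y ∈ tr (dil A d) c, y ∈ S := by
        intro c hc y hy
        unfold tr dil at hy
        rw [mem_image] at hy
        obtain ⟨z, hz, rfl⟩ := hy
        rw [mem_image] at hz
        obtain ⟨a, ha, rfl⟩ := hz
        exact hc.1 a ha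
      rw [mem_coe, mem_symmDiff] at hy
      rcases hy with ⟨hy, _⟩ | ⟨hy, _⟩
      · exact hsub _ m1 y hy
      · exact hsub _ m2 y hy
  have hcross' : ∀ᶠ X : ℕ in atTop, ∀ p ∈ T.offDiag,
      ∑ n ∈ Icc 1 X, P (symmDiff (tr (dil A d) (c₀ + d * p.1)) (tr (dil A d) (c₀ + d * p.2))) n
        ≤ δ * X := by
    rw [Filter.eventually_all_finset]
    exact hcross
  have hcross'' : ∀ᶠ x : ℕ in atTop, ∀ p ∈ T.offDiag,
      ∑ n ∈ Icc 1 (d * x),
        P (symmDiff (tr (dil A d) (c₀ + d * p.1)) (tr (dil A d) (c₀ + d * p.2))) n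
        ≤ δ * (d * x : ℕ) :=
    (tendsto_id.const_mul_atTop' hd0).eventually hcross'
  set Z : ℝ := ∑ t ∈ T, (t : ℝ) with hZ
  obtain ⟨L, hL⟩ := exists_nat_gt ((4 * c₀ + 8 * Z ^ 2) * 4 / ε ^ 2)
  filter_upwards [hcross'', eventually_ge_atTop (max 1 L)] with x hx hxL
  have hx1 : (1 : ℝ) ≤ x := by
    have : 1 ≤ x := le_trans (le_max_left _ _) hxL
    exact_mod_cast this
  have hxL' : (L : ℝ) ≤ x := by
    have : L ≤ x := le_trans (le_max_right _ _) hxL
    exact_mod_cast this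
  have hkey := key A d hd c₀ T x
  have hoff : (T.offDiag.card : ℝ) ≤ N₀ ^ 2 := by
    rw [offDiag_card, hTcard]
    have : (K + 1) * (K + 1) - (K + 1) ≤ (K + 1) ^ 2 := by
      rw [sq]; exact Nat.sub_le _ _
    calc (((K + 1) * (K + 1) - (K + 1) : ℕ) : ℝ) ≤ (((K + 1) ^ 2 : ℕ) : ℝ) := by exact_mod_cast this
      _ = N₀ ^ 2 := by push_cast; ring
  have hsum : ∑ p ∈ T.offDiag,
          (∑ n ∈ Icc 1 (d * x), P (symmDiff (tr (dil A d) (c₀ + d * p.1))
            (tr (dil A d) (c₀ + d * p.2))) n + 2 * (c₀ : ℝ))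
      ≤ N₀ ^ 2 * (δ * (d * x) + 2 * c₀) := by
    have h1 := sum_le_sum (fun p hp => add_le_add_left (hx p hp) (2 * (c₀ : ℝ)))
    refine h1.trans ?_
    rw [sum_const, nsmul_eq_mul]
    push_cast
    apply mul_le_mul_of_nonneg_right hoff
    positivity
  rw [hTcard'] at hkey
  have hkey2 : N₀ ^ 2 * (∑ m ∈ Icc 1 x, P A m) ^ 2
      ≤ 2 * x * (N₀ * (d * x) + N₀ ^ 2 * (δ * (d * x) + 2 * c₀)) + 8 * Z ^ 2 := by
    refine hkey.trans ?_
    have : (2 : ℝ) * x * (N₀ * (d * x) + ∑ p ∈ T.offDiag,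
          (∑ n ∈ Icc 1 (d * x), P (symmDiff (tr (dil A d) (c₀ + d * p.1))
            (tr (dil A d) (c₀ + d * p.2))) n + 2 * (c₀ : ℝ)))
        ≤ 2 * x * (N₀ * (d * x) + N₀ ^ 2 * (δ * (d * x) + 2 * c₀)) := by
      apply mul_le_mul_of_nonneg_left _ (by positivity)
      linarith
    linarith
  -- divide by N₀ ^ 2
  have hN1 : 1 ≤ N₀ := by
    have : (0 : ℝ) ≤ K := by positivity
    linarith
  have hdN : (d : ℝ) ≤ N₀ * (ε ^ 2 / 16) := by
    have : 16 * (d : ℝ) / ε ^ 2 < N₀ := by linarith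
    rw [div_lt_iff₀ hε2] at this
    linarith
  have hδd : δ * d = ε ^ 2 / 16 := by
    rw [hδ]; field_simp
  have hLbig : (4 * c₀ + 8 * Z ^ 2) * 4 ≤ ε ^ 2 * x := by
    have : (4 * c₀ + 8 * Z ^ 2) * 4 / ε ^ 2 < x := lt_of_lt_of_le hL hxL'
    rw [div_lt_iff₀ hε2] at this
    linarith
  have hsq : (∑ m ∈ Icc 1 x, P A m) ^ 2 ≤ (ε * x) ^ 2 :=
    final_algebra N₀ x d c₀ Z ε δ _ hN1 hx1 hdN hδd hLbig hkey2
  exact abs_le_of_sq_le_sq hsq (by positivity)

/-- **Main theorem.** Let `S` be a set of natural numbers which, for every finite `A`, contains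
infinitely many translates of one dilate `d * A` (`d ≥ 1`); for example `S = ℕ`, or the multiples
of a fixed `q`. Then the case `k = 0` of Q1 (Chowla's conjecture: for all `ℓ ≥ 1` and all distinct
shifts the average tends to `0`) is equivalent to the one-sided statement that for every even
`ℓ ≥ 2` and all distinct shifts taken from `S`, the upper limit of the average is at most `0`. -/
theorem result (S : Set ℕ) (hS : Rich S) :
    (∀ (ℓ : ℕ) (h : Fin ℓ → ℕ), 1 ≤ ℓ → Even ℓ → Function.Injective h → (∀ j, h j ∈ S) →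
      ∀ ε : ℝ, 0 < ε → ∀ᶠ x : ℝ in atTop, avg h x ≤ ε) ↔
    (∀ (ℓ : ℕ) (h : Fin ℓ → ℕ), 1 ≤ ℓ → Function.Injective h →
      Tendsto (avg h) atTop (𝓝 0)) := by
  classical
  constructor
  · intro hyp
    -- the hypothesis for finite sets
    have hone : ∀ B : Finset ℕ, B.Nonempty → Even B.card → (↑B ⊆ S) → ∀ ε > 0,
        ∀ᶠ N : ℕ in atTop, ∑ n ∈ Icc 1 N, P B n ≤ ε * N := by
      intro B hB hBe hBS ε hε
      have h1 := hyp B.card (B.orderEmbOfFin rfl) hB.card_pos hBe (B.orderEmbOfFin rfl).injective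
        (fun j => hBS (B.orderEmbOfFin_mem rfl j)) ε hε
      have h2 : ∀ n, ∏ j : Fin B.card, lam (n + (B.orderEmbOfFin rfl) j) = P B n := by
        intro n
        unfold P
        rw [← prod_image (s := univ) (g := fun j => (B.orderEmbOfFin rfl) j)
          (f := fun a => lam (n + a)) (fun a _ b _ h => (B.orderEmbOfFin rfl).injective h)]
        congr 1
        exact B.image_orderEmbOfFin_univ rfl
      have h3 := (tendsto_natCast_atTop_atTop (R := ℝ)).eventually h1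
      filter_upwards [h3, eventually_ge_atTop 1] with N hN hN1
      unfold avg at hN
      simp only [h2, Nat.floor_natCast] at hN
      have hNpos : (0 : ℝ) < N := by exact_mod_cast hN1
      rw [one_div, inv_mul_le_iff₀ hNpos] at hN
      linarith
    intro ℓ h hℓ hinj
    have hA : (univ.image h).Nonempty := ⟨h ⟨0, by omega⟩, mem_image_of_mem _ (mem_univ _)⟩
    have hprod : ∀ n, ∏ j : Fin ℓ, lam (n + h j) = P (univ.image h) n := by
      intro n
      unfold P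
      rw [prod_image (fun a _ b _ h' => hinj h')]
    rw [Metric.tendsto_nhds]
    intro ε hε
    have h1 := main_finset S hS hone (univ.image h) hA (ε / 2) (by positivity)
    have h2 := (tendsto_nat_floor_atTop (α := ℝ)).eventually h1
    have h3 := (tendsto_nat_floor_atTop (α := ℝ)).eventually (eventually_ge_atTop 1)
    filter_upwards [h2, h3] with x hx hx1
    rw [Real.dist_eq, sub_zero]
    unfold avg
    simp only [hprod]
    have hNpos : (0 : ℝ) < (⌊x⌋₊ : ℝ) := by exact_mod_cast hx1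
    rw [abs_mul, abs_of_nonneg (by positivity : (0 : ℝ) ≤ 1 / (⌊x⌋₊ : ℝ)), one_div,
      inv_mul_lt_iff₀ hNpos]
    nlinarith
  · intro hyp ℓ h hℓ _ hinj _ ε hε
    have h1 := hyp ℓ h hℓ hinj
    filter_upwards [h1.eventually (gt_mem_nhds hε)] with x hx
    exact hx.le

end Pool.Agent.Helper8.Shelved.OneSidedReduction
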