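import Mathlib
import Pool.Agent.Helper8.DilationLib
import Pool.Agent.Helper8.Order.Eval
import Pool.Agent.Helper79.Order.Module6

/-!
# Independence of the even orders of Chowla's conjecture from all lower and odd orders

Call `f : ℕ → {1, -1}` *almost Liouville* if for each prime `p` the relation `f (p n) = - f n` holds
for all `n` outside a set of natural density zero. For every even `ℓ ≥ 2` we construct an almost
Liouville function all of whose correlations (natural averages of `∏ j, f (n + h j)`) converge, such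
that those of all orders `< ℓ` and of all odd orders tend to `0`, as Chowla's conjecture predicts for
the Liouville function, while some correlation of order `ℓ` has a nonzero limit. In addition
`f (p n) = - f n` for *all* `n ≥ 1` and all `p` in a given sparse set of primes.

The function is glued from the pieces `(-1) ^ ⌊τ log n⌋` with `N ^ (ℓ - 2) ≪ τ ≪ N ^ (ℓ - 1)` at scale
`N`, and `τ log p` close to odd integers for all small primes `p`.
-/

namespace Pool.Agent.Results.MP_e6fa8b_nt.OrderIndependence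

open Polynomial Finset Filter Topology Pool.Agent.Helper8.Dilation Pool.Agent.Helper8.Order

lemma mem_T {M : ℕ} {t : ℕ × ℤ} : t ∈ T M ↔ t.1 ≤ M ∧ (t.2 = 1 ∨ t.2 = -1) := by
  unfold T
  rw [Finset.mem_product, Finset.mem_range]
  simp

lemma frq_odd {M : ℕ} {t : ℕ × ℤ} (ht : t ∈ T M) : Odd (frq t) := by
  unfold frq
  apply Odd.mul
  · rcases (mem_T.mp ht).2 with h | h <;> rw [h] <;> decide
  · exact odd_two_mul_add_one _

lemma frq_sign {M : ℕ} {t : ℕ × ℤ} (ht : t ∈ T M) : (frq t).sign = t.2 := by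
  unfold frq
  rw [Int.sign_mul]
  have h1 : (2 * (t.1 : ℤ) + 1).sign = 1 := Int.sign_eq_one_of_pos (by positivity)
  rw [h1, mul_one]
  rcases (mem_T.mp ht).2 with h | h <;> rw [h] <;> rfl

lemma coeff_pol {k : ℕ} (h : Fin k → ℕ) (hinj : Function.Injective h) (t : Fin k → ℕ × ℤ) (j : Fin k) :
    (pol h t).coeff (h j) = frq (t j) := by
  unfold pol
  rw [finsetSum_coeff, Finset.sum_eq_single j]
  · simp
  · intro b _ hb
    rw [coeff_C_mul, coeff_X_pow, if_neg (fun h' => hb (hinj h'.symm)), mul_zero]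
  · intro hj; exact absurd (Finset.mem_univ j) hj

lemma card_pol {k : ℕ} (h : Fin k → ℕ) (t : Fin k → ℕ × ℤ) : (pol h t).support.card ≤ k := by
  classical
  have h1 : (pol h t).support ⊆ Finset.univ.image h := by
    intro n hn
    unfold pol at hn
    rw [mem_support_iff, finsetSum_coeff] at hn
    obtain ⟨j, _, hj⟩ := Finset.exists_ne_zero_of_sum_ne_zero hn
    rw [coeff_C_mul, coeff_X_pow] at hj
    rw [Finset.mem_image]
    refine ⟨j, Finset.mem_univ j, ?_⟩
    by_contra hne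
    rw [if_neg (fun h' => hne h'.symm), mul_zero] at hj
    exact hj rfl
  refine (Finset.card_le_card h1).trans ((Finset.card_image_le).trans ?_)
  simp

/-- No resonances below the critical order, nor for odd orders. -/
lemma LM_zero {k : ℕ} (a : ℕ → ℕ → ℝ) (M : ℕ) (h : Fin k → ℕ) (hinj : Function.Injective h) (d : ℕ)
    (hk : 1 ≤ k) (hcase : k ≤ d + 1 ∨ Odd k) : LM a M h d = 0 := by
  classical
  unfold LM
  apply Finset.sum_eq_zero
  intro t ht
  exfalso
  rw [Finset.mem_filter, Fintype.mem_piFinset] at ht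
  obtain ⟨htT, hdvd⟩ := ht
  rcases hcase with hk2 | hodd
  · have hne : pol h t ≠ 0 := by
      intro h0
      have h1 := coeff_pol h hinj t ⟨0, hk⟩
      rw [h0, coeff_zero] at h1
      have h2 := frq_odd (htT ⟨0, hk⟩)
      rw [← h1] at h2
      exact absurd h2 (by decide)
    exact Pool.Agent.Helper79.Order.not_dvd_of_card k _ hne (card_pol h t)
      ((pow_dvd_pow _ hk2).trans hdvd)
  · obtain ⟨q, hq⟩ := hdvd
    have h1 := congrArg (Polynomial.eval 1) hq
    simp only [eval_mul, eval_pow, eval_sub, eval_X, eval_one, sub_self] at h1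
    rw [zero_pow (by omega), zero_mul] at h1
    unfold pol at h1
    rw [eval_finsetSum] at h1
    simp only [eval_mul, eval_C, eval_pow, eval_X, one_pow, mul_one] at h1
    have h2 : ∀ s : Finset (Fin k), (∑ j ∈ s, frq (t j)) % 2 = (s.card : ℤ) % 2 := by
      intro s
      induction s using Finset.induction_on with
      | empty => simp
      | insert b s hb ih =>
        rw [Finset.sum_insert hb, Finset.card_insert_of_notMem hb]
        have h3 := Int.odd_iff.mp (frq_odd (htT b))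
        push_cast
        omega
    have h4 := h2 Finset.univ
    rw [h1, Finset.card_univ, Fintype.card_fin] at h4
    have h5 := Nat.odd_iff.mp hodd
    omega

/-- The resonances add up at the critical order. -/
lemma LM_lower (m : ℕ) (hm : 1 ≤ m) (a : ℕ → ℕ → ℝ) (ha0 : ∀ M j, 0 ≤ a M j)
    (ha3 : ∀ j : ℕ, ∃ c : ℝ, 0 < c ∧ ∃ M0 : ℕ, ∀ M, M0 ≤ M → c ≤ a M j)
    (h : Fin (2 * m) → ℕ) (hinj : Function.Injective h) (c : Fin (2 * m) → ℤ) (hc : ∀ j, Odd (c j))
    (hdvd : (X - 1) ^ (2 * m - 1) ∣ ∑ j, C (c j) * X ^ (h j)) :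
    ∃ c0 : ℝ, 0 < c0 ∧ ∃ M0 : ℕ, ∀ M, M0 ≤ M → c0 ≤ ‖LM a M h (2 * m - 2)‖ := by
  classical
  choose lo hlo M1 hM1 using ha3
  set ts : Fin (2 * m) → ℕ × ℤ := fun j => (((c j).natAbs - 1) / 2, (c j).sign) with hts
  have hcne : ∀ j, c j ≠ 0 := by
    intro j h0
    have := hc j
    rw [h0] at this
    exact absurd this (by decide)
  have hfts : ∀ j, frq (ts j) = c j := by
    intro j
    simp only [hts, frq]
    have h1 : Odd (c j).natAbs := Int.natAbs_odd.mpr (hc j)
    obtain ⟨r, hr⟩ := h1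
    have h2 : ((c j).natAbs - 1) / 2 = r := by omega
    rw [h2]
    have h3 : (2 * (r : ℤ) + 1) = ((c j).natAbs : ℤ) := by rw [hr]; push_cast; ring
    rw [h3]
    exact Int.sign_mul_natAbs (c j)
  have hsgn : ∀ j, (c j).sign = 1 ∨ (c j).sign = -1 := by
    intro j
    rcases lt_or_gt_of_ne (hcne j) with h1 | h1
    · right; exact Int.sign_eq_neg_one_of_neg h1
    · left; exact Int.sign_eq_one_of_pos h1
  refine ⟨(∏ j, lo (ts j).1) / 2 ^ (2 * m), by
      apply div_pos (Finset.prod_pos fun j _ => hlo _) (by positivity),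
    (∑ j, (ts j).1) + ∑ j, M1 (ts j).1, ?_⟩
  intro M hM
  have hts1 : ∀ j, (ts j).1 ≤ M := by
    intro j
    have : (ts j).1 ≤ ∑ j, (ts j).1 :=
      Finset.single_le_sum (f := fun j => (ts j).1) (fun _ _ => Nat.zero_le _) (Finset.mem_univ j)
    omega
  have hM1' : ∀ j, M1 (ts j).1 ≤ M := by
    intro j
    have : M1 (ts j).1 ≤ ∑ j, M1 (ts j).1 :=
      Finset.single_le_sum (f := fun j => M1 (ts j).1) (fun _ _ => Nat.zero_le _) (Finset.mem_univ j)
    omega
  have hd : 2 * m - 2 + 1 = 2 * m - 1 := by omega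
  set σ : ℤ := ∏ j, (c j).sign with hσ
  have hσabs : |(σ : ℝ)| = 1 := by
    rw [hσ]
    push_cast
    rw [Finset.abs_prod]
    apply Finset.prod_eq_one
    intro j _
    rcases hsgn j with h1 | h1 <;> rw [h1] <;> norm_num
  have hterm : ∀ t ∈ (Fintype.piFinset (fun _ : Fin (2 * m) => T M)).filter
      (fun t => (X - 1) ^ (2 * m - 2 + 1) ∣ pol h t),
      ∏ j, coef a M (t j) = ((∏ j, a M (t j).1 : ℝ) : ℂ) * ((σ : ℂ) / (2 * Complex.I) ^ (2 * m)) := by
    intro t ht
    rw [Finset.mem_filter, Fintype.mem_piFinset, hd] at ht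
    obtain ⟨htT, htd⟩ := ht
    have h1 : ∏ j, (frq (t j)).sign = σ :=
      Pool.Agent.Helper79.Order.sign_const (2 * m) ⟨m, by ring⟩ (by omega) h hinj
        (fun j => frq (t j)) c (fun j => frq_odd (htT j)) hc htd hdvd
    have h2 : ∏ j, (t j).2 = σ := by
      rw [← h1]
      exact Finset.prod_congr rfl fun j _ => (frq_sign (htT j)).symm
    unfold coef
    rw [Finset.prod_div_distrib, Finset.prod_mul_distrib, Finset.prod_const, Finset.card_univ,
      Fintype.card_fin, ← h2]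
    push_cast
    ring
  have hLM : LM a M h (2 * m - 2)
      = ((∑ t ∈ (Fintype.piFinset (fun _ : Fin (2 * m) => T M)).filter
        (fun t => (X - 1) ^ (2 * m - 2 + 1) ∣ pol h t), ∏ j, a M (t j).1 : ℝ) : ℂ)
        * ((σ : ℂ) / (2 * Complex.I) ^ (2 * m)) := by
    unfold LM
    rw [Finset.sum_congr rfl hterm, ← Finset.sum_mul]
    push_cast
    rfl
  have htsmem : ts ∈ (Fintype.piFinset (fun _ : Fin (2 * m) => T M)).filter
      (fun t => (X - 1) ^ (2 * m - 2 + 1) ∣ pol h t) := by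
    rw [Finset.mem_filter, Fintype.mem_piFinset, hd]
    refine ⟨fun j => mem_T.mpr ⟨hts1 j, hsgn j⟩, ?_⟩
    unfold pol
    simp_rw [hfts]
    exact hdvd
  have hsum : ∏ j, lo (ts j).1 ≤ ∑ t ∈ (Fintype.piFinset (fun _ : Fin (2 * m) => T M)).filter
        (fun t => (X - 1) ^ (2 * m - 2 + 1) ∣ pol h t), ∏ j, a M (t j).1 := by
    refine le_trans ?_ (Finset.single_le_sum (f := fun t => ∏ j, a M (t j).1)
      (fun t _ => Finset.prod_nonneg fun j _ => ha0 _ _) htsmem)
    exact Finset.prod_le_prod (fun j _ => (hlo _).le) (fun j _ => hM1 _ M (hM1' j))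
  rw [hLM, norm_mul, norm_div, norm_pow, norm_mul, Complex.norm_I, Complex.norm_real,
    Real.norm_eq_abs, Complex.norm_intCast, hσabs]
  have h2 : ‖(2 : ℂ)‖ = 2 := by simp
  rw [h2, mul_one, mul_one_div]
  apply div_le_div_of_nonneg_right _ (by positivity)
  exact hsum.trans (le_abs_self _)

/-- A real sequence close to constants converges. -/
lemma conv_of_close (x : ℕ → ℝ)
    (h : ∀ ε : ℝ, 0 < ε → ∃ z : ℂ, ∀ᶠ N : ℕ in atTop, ‖((x N : ℝ) : ℂ) - z‖ ≤ ε) :
    ∃ c, Tendsto x atTop (𝓝 c) := by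
  apply cauchySeq_tendsto_of_complete
  rw [Metric.cauchySeq_iff]
  intro ε hε
  obtain ⟨z, hz⟩ := h (ε / 3) (by positivity)
  obtain ⟨N0, hN0⟩ := Filter.eventually_atTop.mp hz
  refine ⟨N0, fun m hm n hn => ?_⟩
  have h1 := hN0 m hm
  have h2 := hN0 n hn
  rw [Real.dist_eq]
  have h3 : |x m - x n| = ‖(((x m : ℝ) : ℂ) - z) - (((x n : ℝ) : ℂ) - z)‖ := by
    rw [sub_sub_sub_cancel_right, ← Complex.ofReal_sub, Complex.norm_real, Real.norm_eq_abs]
  rw [h3]
  have h4 := norm_sub_le (((x m : ℝ) : ℂ) - z) (((x n : ℝ) : ℂ) - z)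
  linarith

/-- **Main theorem.** Let `P` be a set of primes with `∑_{p ∈ P} 1/p < ∞` (possibly empty) and let
`ℓ ≥ 2` be even. There is an almost Liouville function `f`, with `f (p * n) = - f n` for all `p ∈ P`
and all `n ≥ 1`, such that all correlations of `f` converge, the correlations with `k ≥ 1` distinct
shifts tend to `0` whenever `k < ℓ` or `k` is odd, and some correlation with `ℓ` distinct shifts has a
nonzero limit. -/
theorem result (P : Set ℕ) (hP : ∀ p ∈ P, p.Prime)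
    (hs : Summable (P.indicator (fun p : ℕ => (1 : ℝ) / p))) (ℓ : ℕ) (hℓ : Even ℓ) (h2 : 2 ≤ ℓ) :
    ∃ f : ℕ → ℝ, LiouvilleOn P f ∧ AlmostLiouville f ∧
      (∀ (k : ℕ) (h : Fin k → ℕ), ∃ c : ℝ, Tendsto (avg f h) atTop (𝓝 c)) ∧
      (∀ (k : ℕ) (h : Fin k → ℕ), 1 ≤ k → Function.Injective h → (k < ℓ ∨ Odd k) →
        Tendsto (avg f h) atTop (𝓝 0)) ∧
      ∃ h : Fin ℓ → ℕ, Function.Injective h ∧ ∃ c : ℝ, c ≠ 0 ∧ Tendsto (avg f h) atTop (𝓝 c) := by
  classical
  obtain ⟨m, rfl⟩ : ∃ m, ℓ = 2 * m := by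
    obtain ⟨m, hm⟩ := hℓ
    exact ⟨m, by omega⟩
  have hm : 1 ≤ m := by omega
  obtain ⟨τ, δ, hF⟩ := seq kronDense (2 * m - 2)
  obtain ⟨a, ha0, ha1, ha2, ha3⟩ := approximants
  set g : ℕ → ℝ := glued τ δ with hg
  have hgpm : ∀ n, g n = 1 ∨ g n = -1 := glued_pm τ δ
  have hgp : ∀ p : ℕ, p.Prime → DZ {n | g (p * n) ≠ - g n} := fun p hp => glued_almost hF p hp
  set f : ℕ → ℝ := fun n => (-1) ^ expo P n * g (rough P n) with hf
  have hfpm : ∀ n, f n = 1 ∨ f n = -1 := by
    intro n; simp only [hf]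
    rcases neg_one_pow_eq_or ℝ (expo P n) with a | a <;> rcases hgpm (rough P n) with b | b <;>
      rw [a, b] <;> norm_num
  have hfg : DZ {n | f n ≠ g n} := by
    refine (correct P hP hs g (fun p hp => hgp p (hP p hp))).mono ?_
    intro n hn hcon
    exact hn hcon.symm
  -- correlations of `f` and `g` agree
  have havg : ∀ (k : ℕ) (h : Fin k → ℕ), Tendsto (fun N : ℕ => avg f h N - avg g h N) atTop (𝓝 0) := by
    intro k h
    have h1 : DZ {n | ∏ j, f (n + h j) ≠ ∏ j, g (n + h j)} := by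
      have h3 : DZ {n | ∃ j ∈ (Finset.univ : Finset (Fin k)), n ∈ {n | n + h j ∈ {n | f n ≠ g n}}} :=
        DZ.iUnion _ _ (fun j _ => hfg.preimage_add (h j))
      refine h3.mono ?_
      intro n hn
      by_contra hcon
      apply hn
      refine Finset.prod_congr rfl fun j _ => ?_
      by_contra hk
      exact hcon ⟨j, Finset.mem_univ j, hk⟩
    exact avg_tendsto (prod_abs f hfpm h) (prod_abs g hgpm h) h1
  have hcorr : ∀ (k : ℕ) (h : Fin k → ℕ) (ε : ℝ), 0 < ε → ∃ M0 : ℕ, ∀ M, M0 ≤ M →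
      ∀ᶠ N : ℕ in atTop, ‖((avg g h N : ℝ) : ℂ) - LM a M h (2 * m - 2)‖ ≤ ε :=
    fun k h ε hε => corr hF h a ha1 ha2 ε hε
  have hconvg : ∀ (k : ℕ) (h : Fin k → ℕ), ∃ c : ℝ, Tendsto (avg g h) atTop (𝓝 c) := by
    intro k h
    apply conv_of_close
    intro ε hε
    obtain ⟨M0, hM0⟩ := hcorr k h ε hε
    exact ⟨_, hM0 M0 le_rfl⟩
  have hlim : ∀ (k : ℕ) (h : Fin k → ℕ) (c : ℝ), Tendsto (avg g h) atTop (𝓝 c) →
      Tendsto (avg f h) atTop (𝓝 c) := by
    intro k h c hc
    have h3 := (havg k h).add hc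
    rw [zero_add] at h3
    refine h3.congr fun N => ?_
    ring
  refine ⟨f, ⟨hfpm, ?_⟩, ⟨hfpm, ?_⟩, ?_, ?_, ?_⟩
  · intro p hp n hn
    simp only [hf]
    rw [rough_mul P p hp (hP p hp) n hn, expo_mul P p hp (hP p hp) n hn, pow_succ]
    ring
  · intro p hp
    apply densityZero_of_DZ
    refine ((hfg.preimage_mul p hp.one_le).union ((hgp p hp).union hfg)).mono ?_
    intro n hn
    by_contra hcon
    simp only [Set.mem_union, Set.mem_ofPred_eq, not_or, not_not] at hcon
    apply hn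
    rw [hcon.1, hcon.2.1, hcon.2.2]
  · intro k h
    obtain ⟨c, hc⟩ := hconvg k h
    exact ⟨c, hlim k h c hc⟩
  · intro k h hk hinj hcase
    apply hlim
    rw [Metric.tendsto_nhds]
    intro ε hε
    obtain ⟨M0, hM0⟩ := hcorr k h (ε / 2) (by positivity)
    have h0 : LM a M0 h (2 * m - 2) = 0 := by
      apply LM_zero a M0 h hinj _ hk
      rcases hcase with h1 | h1
      · left; omega
      · exact Or.inr h1
    filter_upwards [hM0 M0 le_rfl] with N hN
    rw [h0, sub_zero, Complex.norm_real, Real.norm_eq_abs] at hN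
    rw [Real.dist_eq, sub_zero]
    linarith
  · obtain ⟨h, hinj, c, hc, hdvd⟩ := Pool.Agent.Helper79.Order.exists_odd_relation m hm
    obtain ⟨c0, hc0, M1, hM1⟩ := LM_lower m hm a ha0 ha3 h hinj c hc hdvd
    obtain ⟨z, hz⟩ := hconvg (2 * m) h
    refine ⟨h, hinj, z, ?_, hlim _ h z hz⟩
    rintro rfl
    obtain ⟨M0, hM0⟩ := hcorr (2 * m) h (c0 / 4) (by positivity)
    have h1 := hM0 (max M0 M1) (le_max_left _ _)
    have h3 := hM1 (max M0 M1) (le_max_right _ _)
    have h4 : ∀ᶠ N : ℕ in atTop, |avg g h N| ≤ c0 / 4 := by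
      have := hz.eventually (Metric.ball_mem_nhds 0 (show 0 < c0 / 4 by positivity))
      filter_upwards [this] with N hN
      have hN' : dist (avg g h N) 0 < c0 / 4 := hN
      rw [Real.dist_eq, sub_zero] at hN'
      exact hN'.le
    obtain ⟨N, hN1, hN2⟩ := (h1.and h4).exists
    have h5 : ‖LM a (max M0 M1) h (2 * m - 2)‖ ≤ ‖((avg g h N : ℝ) : ℂ)‖
        + ‖((avg g h N : ℝ) : ℂ) - LM a (max M0 M1) h (2 * m - 2)‖ := by
      have := norm_sub_le ((avg g h N : ℝ) : ℂ)
        (((avg g h N : ℝ) : ℂ) - LM a (max M0 M1) h (2 * m - 2))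
      rwa [sub_sub_cancel] at this
    rw [Complex.norm_real, Real.norm_eq_abs] at h5
    linarith

end Pool.Agent.Results.MP_e6fa8b_nt.OrderIndependence
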