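import Mathlib
import Pool.Agent.Helper8.DilationLib

/-!
# Exact minima of two-point averages of almost Liouville functions

Call `f : ℕ → {1, -1}` *almost Liouville* if for each prime `p` the relation `f (p n) = - f n` holds
for all `n` outside a set of natural density zero; the Liouville function is an example. We
determine, for all shifts `h` not divisible by `4`, the least value that the averages of
`f n * f (n + h)` can approach: it is `-1/3` if `h` is odd and `-1/2` if `h ≡ 2 (mod 4)`.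
-/

namespace Pool.Agent.Results.MP_e6fa8b_nt.TwoPointMinima

open Finset Filter Topology Pool.Agent.Helper8.Dilation

/-- Reduction of an almost Liouville function to one that is exactly odd under dilation by `2`. -/
lemma exact_two (f : ℕ → ℝ) (hf : AlmostLiouville f) :
    ∃ f' : ℕ → ℝ, (∀ n, f' n = 1 ∨ f' n = -1) ∧ (∀ n, 1 ≤ n → f' (2 * n) = - f' n) ∧
      ∀ h : ℕ, ∀ ε : ℝ, 0 < ε → ∀ᶠ N : ℕ in atTop,
        |∑ n ∈ Ioc 0 N, f n * f (n + h) - ∑ n ∈ Ioc 0 N, f' n * f' (n + h)| ≤ ε * N := by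
  classical
  set P2 : Set ℕ := {2} with hP2
  have hP2p : ∀ p ∈ P2, p.Prime := by
    intro p hp; rw [hP2, Set.mem_singleton_iff] at hp; rw [hp]; exact Nat.prime_two
  have hs2 : Summable (P2.indicator (fun p : ℕ => (1 : ℝ) / p)) := by
    apply summable_of_hasFiniteSupport
    apply (Set.finite_singleton 2).subset
    exact Set.support_indicator_subset
  have h2 := DZ_of_densityZero (hf.2 2 Nat.prime_two)
  have hcor := correct P2 hP2p hs2 f (fun p hp => by
    rw [hP2, Set.mem_singleton_iff] at hp; rw [hp]; exact h2)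
  set f' : ℕ → ℝ := fun n => (-1) ^ expo P2 n * f (rough P2 n) with hf'
  have hf'pm : ∀ n, f' n = 1 ∨ f' n = -1 := by
    intro n; simp only [hf']
    rcases neg_one_pow_eq_or ℝ (expo P2 n) with a | a <;> rcases hf.1 (rough P2 n) with b | b <;>
      rw [a, b] <;> norm_num
  have hf'2 : ∀ n, 1 ≤ n → f' (2 * n) = - f' n := by
    intro n hn
    simp only [hf']
    rw [rough_mul P2 2 (by rw [hP2]; rfl) Nat.prime_two n hn,
      expo_mul P2 2 (by rw [hP2]; rfl) Nat.prime_two n hn, pow_succ]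
    ring
  refine ⟨f', hf'pm, hf'2, fun h ε hε => ?_⟩
  have hdz : DZ {n | f n * f (n + h) ≠ f' n * f' (n + h)} := by
    refine (hcor.union (hcor.preimage_add h)).mono ?_
    intro n hn
    by_contra hcon
    simp only [Set.mem_union, Set.mem_ofPred_eq, not_or, not_not] at hcon
    apply hn
    show f n * f (n + h) = f' n * f' (n + h)
    simp only [hf']
    rw [← hcon.1, ← hcon.2]
  have habs : ∀ (g : ℕ → ℝ), (∀ n, g n = 1 ∨ g n = -1) → ∀ n, |g n * g (n + h)| ≤ 1 := by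
    intro g hg n
    rcases hg n with a | a <;> rcases hg (n + h) with b | b <;> rw [a, b] <;> norm_num
  exact DZ.avg_close (habs f hf.1) (habs f' hf'pm) hdz ε hε

/-- Transfer of a two-point limit from a completely multiplicative function. -/
lemma two_point (P : Set ℕ) (hP : ∀ p ∈ P, p.Prime)
    (hs : Summable (P.indicator (fun p : ℕ => (1 : ℝ) / p))) (F : ℕ → ℝ) (hF : CompMult F) :
    ∃ f : ℕ → ℝ, LiouvilleOn P f ∧ AlmostLiouville f ∧ ∀ (h : ℕ) (L a b : ℝ),
      (∀ᶠ N : ℕ in atTop, |∑ n ∈ Ioc 0 N, F n * F (n + h) - L * N| ≤ a * Real.log N + b) →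
      Tendsto (fun N : ℕ => (∑ n ∈ Ioc 0 N, f n * f (n + h)) / N) atTop (𝓝 L) := by
  classical
  obtain ⟨f, c, hf, hfA, hcpm, hc, hfc, _⟩ := basic P hP hs F hF
  refine ⟨f, hf, hfA, fun h L a b hL => ?_⟩
  have hdz : DZ {n | f n * f (n + h) ≠ F n * F (n + h)} := by
    refine ((hc h).union (hfc.union (hfc.preimage_add h))).mono ?_
    intro n hn
    by_contra hcon
    simp only [Set.mem_union, Set.mem_ofPred_eq, not_or, not_not] at hcon
    apply hn
    show f n * f (n + h) = F n * F (n + h)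
    rw [hcon.2.1, hcon.2.2, hcon.1]
    rcases hcpm n with e | e <;> rw [e] <;> ring
  have habs : ∀ (g : ℕ → ℝ), (∀ n, g n = 1 ∨ g n = -1) → ∀ n, |g n * g (n + h)| ≤ 1 := by
    intro g hg n
    rcases hg n with a | a <;> rcases hg (n + h) with b | b <;> rw [a, b] <;> norm_num
  rw [Metric.tendsto_nhds]
  intro ε hε
  filter_upwards [DZ.avg_close (habs f hf.1) (habs F hF.1) hdz (ε / 4) (by positivity), hL,
    log_small a b (ε / 4) (by positivity), eventually_ge_atTop 1] with N h1 h2 h3 h4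
  have hNpos : (0 : ℝ) < N := by exact_mod_cast h4
  rw [Real.dist_eq]
  have e : (∑ n ∈ Ioc 0 N, f n * f (n + h)) / N - L
      = ((∑ n ∈ Ioc 0 N, f n * f (n + h) - ∑ n ∈ Ioc 0 N, F n * F (n + h))
        + (∑ n ∈ Ioc 0 N, F n * F (n + h) - L * N)) / N := by
    field_simp; ring
  rw [e, abs_div, abs_of_pos hNpos]
  have h5 : |(∑ n ∈ Ioc 0 N, f n * f (n + h) - ∑ n ∈ Ioc 0 N, F n * F (n + h))
        + (∑ n ∈ Ioc 0 N, F n * F (n + h) - L * N)| / N ≤ ε / 2 := by
    rw [div_le_iff₀ hNpos]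
    refine (abs_add_le _ _).trans ?_
    linarith
  linarith

/-- **Main theorem.** (i) For every almost Liouville `f`, the average of `f n * f (n + h)` over
`1 ≤ n ≤ N` is, for every `ε > 0` and all large `N`, at least `-1/3 - ε` if `h` is odd, and at least
`-1/2 - ε` if `h ≡ 2 (mod 4)`. (ii) Both constants are attained as limits: for every set `P` of
primes with `∑_{p ∈ P} 1/p < ∞` there are almost Liouville functions `f₁`, `f₂` that satisfy
`f (p * n) = - f n` for all `p ∈ P` and all `n ≥ 1`, such that the average of `f₁ n * f₁ (n + h)`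
tends to `-1/3` for every odd `h` and that of `f₂ n * f₂ (n + h)` tends to `-1/2` for every
`h ≡ 2 (mod 4)`. -/
theorem result :
    (∀ f : ℕ → ℝ, AlmostLiouville f → ∀ h : ℕ, ∀ ε : ℝ, 0 < ε →
      (h % 2 = 1 → ∀ᶠ N : ℕ in atTop,
        -(1 / 3) - ε ≤ (∑ n ∈ Finset.Ioc 0 N, f n * f (n + h)) / N) ∧
      (h % 4 = 2 → ∀ᶠ N : ℕ in atTop,
        -(1 / 2) - ε ≤ (∑ n ∈ Finset.Ioc 0 N, f n * f (n + h)) / N)) ∧
    (∀ P : Set ℕ, (∀ p ∈ P, p.Prime) → Summable (P.indicator (fun p : ℕ => (1 : ℝ) / p)) →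
      (∃ f₁ : ℕ → ℝ, LiouvilleOn P f₁ ∧ AlmostLiouville f₁ ∧ ∀ h : ℕ, h % 2 = 1 →
        Tendsto (fun N : ℕ => (∑ n ∈ Finset.Ioc 0 N, f₁ n * f₁ (n + h)) / N) atTop
          (𝓝 (-(1 / 3)))) ∧
      (∃ f₂ : ℕ → ℝ, LiouvilleOn P f₂ ∧ AlmostLiouville f₂ ∧ ∀ h : ℕ, h % 4 = 2 →
        Tendsto (fun N : ℕ => (∑ n ∈ Finset.Ioc 0 N, f₂ n * f₂ (n + h)) / N) atTop
          (𝓝 (-(1 / 2))))) := by
  classical
  refine ⟨fun f hf h ε hε => ⟨fun hh => ?_, fun hh => ?_⟩, fun P hP hs => ⟨?_, ?_⟩⟩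
  · obtain ⟨f', hpm, hd2, hcl⟩ := exact_two f hf
    obtain ⟨t, rfl⟩ : ∃ t, h = 2 * t + 1 := ⟨h / 2, by omega⟩
    filter_upwards [hcl (2 * t + 1) (ε / 2) (by positivity),
      log_small (4 * t + 7) (4 * t + 7) (ε / 2) (by positivity), eventually_ge_atTop 1]
      with N hN1 hN2 hN3
    have hNpos : (0 : ℝ) < N := by exact_mod_cast hN3
    have h1 := lower_third f' hpm hd2 t N hN3
    rw [le_div_iff₀ hNpos]
    have := (abs_le.mp hN1).1
    linarith
  · obtain ⟨f', hpm, hd2, hcl⟩ := exact_two f hf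
    obtain ⟨t, rfl⟩ : ∃ t, h = 4 * t + 2 := ⟨h / 4, by omega⟩
    filter_upwards [hcl (4 * t + 2) (ε / 2) (by positivity),
      log_small 0 (2 * t + 3) (ε / 2) (by positivity), eventually_ge_atTop 1]
      with N hN1 hN2 hN3
    have hNpos : (0 : ℝ) < N := by exact_mod_cast hN3
    have h1 := lower_half f' hpm hd2 t N
    rw [le_div_iff₀ hNpos]
    have := (abs_le.mp hN1).1
    linarith
  · obtain ⟨f, hf, hfA, htr⟩ := two_point P hP hs F2 F2_compMult
    refine ⟨f, hf, hfA, fun h hh => ?_⟩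
    obtain ⟨t, rfl⟩ : ∃ t, h = 2 * t + 1 := ⟨h / 2, by omega⟩
    apply htr (2 * t + 1) (-(1 / 3)) 4 (4 * t + 5)
    filter_upwards [eventually_ge_atTop 2] with N hN
    have := F2_corr t N hN
    have e : ∑ n ∈ Ioc 0 N, F2 n * F2 (n + (2 * t + 1)) - -(1 / 3) * (N : ℝ)
        = ∑ n ∈ Ioc 0 N, F2 n * F2 (n + (2 * t + 1)) + N / 3 := by ring
    rw [e]; exact this
  · obtain ⟨f, hf, hfA, htr⟩ := two_point P hP hs F4 F4_compMult
    refine ⟨f, hf, hfA, fun h hh => ?_⟩
    obtain ⟨t, rfl⟩ : ∃ t, h = 4 * t + 2 := ⟨h / 4, by omega⟩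
    apply htr (4 * t + 2) (-(1 / 2)) 0 (4 * t + 4)
    filter_upwards with N
    have := F4_corr t N
    have e : ∑ n ∈ Ioc 0 N, F4 n * F4 (n + (4 * t + 2)) - -(1 / 2) * (N : ℝ)
        = ∑ n ∈ Ioc 0 N, F4 n * F4 (n + (4 * t + 2)) + N / 2 := by ring
    rw [e, zero_mul, zero_add]; exact this

end Pool.Agent.Results.MP_e6fa8b_nt.TwoPointMinima
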